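import Pool.Agent.Q240.CD.Stm3
import Pool.Agent.Q65.CD.SpP

set_option autoImplicit false

/-! # Project CD: every polynomial of degree at most `2 n` times `S` is a transform -/

open Polynomial Filter Topology Finset MeasureTheory Complex

namespace Pool.Agent.Q240.CD

/-- the real nodes -/
noncomputable def vk (a : ℝ) (k : ℤ) : ℂ := ((Real.pi * k / a : ℝ) : ℂ)

lemma nd_vk (a : ℝ) (k : ℤ) : Y23.G.F.nd a k = I * vk a k := by
  unfold Y23.G.F.nd vk
  ring

lemma vk_inj {a : ℝ} (ha : 0 < a) : Function.Injective (vk a) := by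
  intro k l h
  have h1 : (Real.pi * k / a : ℝ) = Real.pi * l / a := by
    unfold vk at h
    exact_mod_cast h
  have hpi := Real.pi_pos
  have h2 : (k : ℝ) = l := by
    field_simp at h1
    exact h1
  exact_mod_cast h2

lemma Icc_succ (n : ℕ) : Finset.Icc (-((n + 1 : ℕ) : ℤ)) ((n + 1 : ℕ) : ℤ) =
    insert ((n + 1 : ℕ) : ℤ) (insert (-((n + 1 : ℕ) : ℤ)) (Finset.Icc (-(n : ℤ)) n)) := by
  ext k
  simp only [Finset.mem_Icc, Finset.mem_insert]
  push_cast
  omega

lemma sin_nodes {a : ℝ} (ha : 0 < a) (n : ℕ) : ∃ c : ℂ, ∀ z : ℂ,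
    z * (∏ k ∈ range n, (1 - z ^ 2 / ((xk a (k + 1) : ℝ) : ℂ) ^ 2)) = c * ∏ k ∈ Finset.Icc (-(n : ℤ)) n, (z - vk a k) := by
  induction n with
  | zero =>
    refine ⟨1, fun z => ?_⟩
    simp [vk]
  | succ n ih =>
    obtain ⟨c, hc⟩ := ih
    have hx : ((xk a (n + 1) : ℝ) : ℂ) ≠ 0 := by
      have : 0 < xk a (n + 1) := by unfold xk; positivity
      exact_mod_cast this.ne'
    have hv : vk a ((n + 1 : ℕ) : ℤ) = ((xk a (n + 1) : ℝ) : ℂ) := by
      unfold vk xk
      push_cast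
      rfl
    have hv' : vk a (-((n + 1 : ℕ) : ℤ)) = -((xk a (n + 1) : ℝ) : ℂ) := by
      unfold vk xk
      push_cast
      ring
    refine ⟨c * (-1 / ((xk a (n + 1) : ℝ) : ℂ) ^ 2), fun z => ?_⟩
    rw [prod_range_succ, ← mul_assoc, hc, Icc_succ, Finset.prod_insert, Finset.prod_insert, hv, hv']
    · field_simp
      ring
    · rw [Finset.mem_Icc]
      push_cast
      omega
    · rw [Finset.mem_insert, Finset.mem_Icc]
      push_cast
      omega

lemma TT_ek_eq {a : ℝ} (ha : 0 < a) (k : ℤ) (z : ℂ) :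
    (z - vk a k) * Y23.TT (Y23.G.F.ek a k) (I * z) = 2 * (-1) ^ k * Complex.sin (a * z) := by
  rw [Y23.G.F.TT_ek, nd_vk]
  have h1 := Y23.G.F.TT_box ha (-(I * vk a k) + I * z)
  have ha0 : (a : ℂ) ≠ 0 := by exact_mod_cast ha.ne'
  have e1 : (a : ℂ) * (-(I * vk a k) + I * z) = (a * z - k * Real.pi) * I := by
    unfold vk
    push_cast
    field_simp
    ring
  rw [e1] at h1
  have h2 : cexp ((a * z - k * Real.pi) * I) - cexp (-((a * z - k * Real.pi) * I)) = 2 * I * Complex.sin (a * z - k * Real.pi) := by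
    rw [Complex.sin]
    have e2 : -(a * z - k * Real.pi) * I = -((a * z - k * Real.pi) * I) := by ring
    rw [e2]
    have : I * I = -1 := I_mul_I
    linear_combination (-cexp (-((a * z - k * Real.pi) * I)) + cexp ((a * z - k * Real.pi) * I)) * this
  have hsin : Complex.sin (a * z - k * Real.pi) = (-1) ^ k * Complex.sin (a * z) := by
    have h5 := Complex.sin_antiperiodic.sub_int_mul_eq (x := a * z) (n := k)
    rw [h5, Int.cast_negOnePow ℂ]
  rw [h2, hsin] at h1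
  have h3 : I * ((z - vk a k) * Y23.TT (Y23.G.F.box a) (-(I * vk a k) + I * z)) = I * (2 * (-1) ^ k * Complex.sin (a * z)) := by
    rw [← mul_assoc]
    have e3 : I * (z - vk a k) = -(I * vk a k) + I * z := by ring
    rw [e3, h1]
    ring
  exact mul_left_cancel₀ I_ne_zero h3

/-- the transform of an exponential -/
lemma TT_ek_prod {a : ℝ} (ha : 0 < a) (hB : S_SpB) (n : ℕ) {k : ℤ} (hk : k ∈ Finset.Icc (-(n : ℤ)) n) : ∃ B : ℂ, B ≠ 0 ∧ ∀ z : ℂ,
    Y23.TT (Y23.G.F.ek a k) (I * z) = B * ((∏ j ∈ (Finset.Icc (-(n : ℤ)) n).erase k, (z - vk a j)) * Sp a n z) := by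
  obtain ⟨c, hc⟩ := sin_nodes ha n
  set B : ℂ := 2 * (-1) ^ k * a * c with hBd
  have h1 : ∀ z : ℂ, z ≠ vk a k → Y23.TT (Y23.G.F.ek a k) (I * z) =
      B * ((∏ j ∈ (Finset.Icc (-(n : ℤ)) n).erase k, (z - vk a j)) * Sp a n z) := by
    intro z hz
    have h2 := TT_ek_eq ha k z
    rw [Pool.Agent.Q65.CD.spp a n z ha] at h2
    have h3 : (a : ℂ) * z * (∏ k ∈ range n, (1 - z ^ 2 / ((xk a (k + 1) : ℝ) : ℂ) ^ 2)) * Sp a n z =
        a * (z * (∏ k ∈ range n, (1 - z ^ 2 / ((xk a (k + 1) : ℝ) : ℂ) ^ 2))) * Sp a n z := by ring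
    rw [h3, hc, ← Finset.mul_prod_erase _ _ hk] at h2
    refine mul_left_cancel₀ (sub_ne_zero.2 hz) ?_
    rw [h2, hBd]
    ring
  have hcont1 : Continuous fun z : ℂ => Y23.TT (Y23.G.F.ek a k) (I * z) :=
    (Y23.differentiable_TT (Y23.G.F.Fa_ek k)).continuous.comp (by fun_prop)
  have hcont2 : Continuous fun z : ℂ => B * ((∏ j ∈ (Finset.Icc (-(n : ℤ)) n).erase k, (z - vk a j)) * Sp a n z) := by
    refine continuous_const.mul (Continuous.mul ?_ (hB a n).1.continuous)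
    exact continuous_finsetProd _ fun j _ => by fun_prop
  have h2 : (fun z : ℂ => Y23.TT (Y23.G.F.ek a k) (I * z)) =
      fun z : ℂ => B * ((∏ j ∈ (Finset.Icc (-(n : ℤ)) n).erase k, (z - vk a j)) * Sp a n z) := by
    refine Continuous.ext_on (dense_compl_singleton (vk a k)) hcont1 hcont2 fun z hz => ?_
    exact h1 z hz
  refine ⟨B, fun h0 => ?_, fun z => congrFun h2 z⟩
  have h3 : Y23.TT (Y23.G.F.ek a k) (I * vk a k) = B * ((∏ j ∈ (Finset.Icc (-(n : ℤ)) n).erase k, (vk a k - vk a j)) * Sp a n (vk a k)) :=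
    congrFun h2 (vk a k)
  rw [← nd_vk, Y23.G.F.TT_ek_self ha, h0, zero_mul] at h3
  have : (a : ℂ) = 0 := by linear_combination h3 / 2
  exact ha.ne' (by exact_mod_cast this)

lemma TT_sum' {a : ℝ} {ν : ℕ∞} {β : Type} (s : Finset β) (F : β → ℝ → ℂ) (hF : ∀ b ∈ s, Y23.G.F.Hn a ν (F b)) (w : ℂ) :
    Y23.TT (fun x => ∑ b ∈ s, F b x) w = ∑ b ∈ s, Y23.TT (F b) w ∧ Y23.G.F.Hn a ν (fun x => ∑ b ∈ s, F b x) := by
  classical
  induction s using Finset.induction_on with
  | empty =>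
    refine ⟨?_, by simpa using Y23.G.F.Hn.zero⟩
    simp [Y23.TT]
  | insert b s hb ih =>
    obtain ⟨h1, h2⟩ := ih fun c hc => hF c (Finset.mem_insert_of_mem hc)
    have h3 := hF b (Finset.mem_insert_self b s)
    have e : (fun x => ∑ b ∈ insert b s, F b x) = fun x => F b x + ∑ b ∈ s, F b x := by
      funext x
      rw [Finset.sum_insert hb]
    rw [e, Finset.sum_insert hb]
    exact ⟨by rw [Y23.TT_add h3.1 h2.1, h1], h3.add h2⟩

theorem repInv (hB : S_SpB) : S_RepInv := by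
  intro a n P ha hP
  classical
  set s : Finset ℤ := Finset.Icc (-(n : ℤ)) n with hs
  have hinj : Set.InjOn (vk a) s := (vk_inj ha).injOn
  have hcard : s.card = 2 * n + 1 := by
    rw [hs, Int.card_Icc]
    omega
  choose! B hB0 hBe using fun (k : ℤ) (hk : k ∈ s) => TT_ek_prod ha hB n hk
  -- the coefficients
  set c : ℤ → ℂ := fun k => P.eval (vk a k) / (B k * ∏ j ∈ s.erase k, (vk a k - vk a j)) with hc
  have hFn : ∀ k ∈ s, Y23.G.F.Hn a (n : ℕ∞) (fun x => c k * Y23.G.F.ek a k x) := by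
    intro k hk
    refine (Y23.G.F.Hn_ek ha ?_).smul (c k)
    rw [hs, Finset.mem_Icc] at hk
    have : k.natAbs ≤ n := by omega
    exact_mod_cast this
  refine ⟨fun x => ∑ k ∈ s, c k * Y23.G.F.ek a k x, (TT_sum' s _ hFn 0).2, fun z => ?_⟩
  rw [(TT_sum' s _ hFn (I * z)).1]
  have hdeg : P.degree < s.card := by
    rw [hcard]
    refine lt_of_le_of_lt Polynomial.degree_le_natDegree ?_
    exact_mod_cast (by omega : P.natDegree < 2 * n + 1)
  have hPe : P = Lagrange.interpolate s (vk a) (fun k => P.eval (vk a k)) := Lagrange.eq_interpolate hinj hdeg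
  conv_rhs => rw [hPe]
  rw [Lagrange.interpolate_apply, Polynomial.eval_finsetSum, Finset.sum_mul]
  refine Finset.sum_congr rfl fun k hk => ?_
  rw [Y23.TT_smul, hBe k hk]
  have hne : ∏ j ∈ s.erase k, (vk a k - vk a j) ≠ 0 := by
    refine Finset.prod_ne_zero_iff.2 fun j hj => ?_
    rw [Finset.mem_erase] at hj
    exact sub_ne_zero.2 fun h => hj.1 (vk_inj ha h).symm
  have hbas : (Lagrange.basis s (vk a) k).eval z = (∏ j ∈ s.erase k, (z - vk a j)) / ∏ j ∈ s.erase k, (vk a k - vk a j) := by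
    unfold Lagrange.basis Lagrange.basisDivisor
    rw [Polynomial.eval_prod, ← Finset.prod_div_distrib]
    refine Finset.prod_congr rfl fun j _ => ?_
    rw [Polynomial.eval_mul, Polynomial.eval_C, Polynomial.eval_sub, Polynomial.eval_X, Polynomial.eval_C]
    rw [div_eq_inv_mul]
  rw [Polynomial.eval_mul, Polynomial.eval_C, hbas, hc]
  have hBk := hB0 k hk
  simp only
  rw [← hs]
  field_simp

end Pool.Agent.Q240.CD
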