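import Pool.Agent.Q240.CD.Stm4
import Pool.Agent.Q65.CD.SpP

set_option autoImplicit false

/-! # Project CD: splitting off factors -/

open Polynomial Filter Topology Finset MeasureTheory

namespace Pool.Agent.Q240.CD

theorem spR : S_SpR := by
  intro a n k z ha
  have h1 : Multipliable fun i : ℕ => (1 - z ^ 2 / ((xk a (n + 1 + (i + k)) : ℝ) : ℂ) ^ 2) := by
    refine (Pool.Agent.Q65.CD.mult_all ha z (n + k)).congr fun i => ?_
    rw [show n + k + 1 + i = n + 1 + (i + k) by ring]
  have h2 := Multipliable.prod_mul_tprod_nat_mul' (f := fun i : ℕ => (1 - z ^ 2 / ((xk a (n + 1 + i) : ℝ) : ℂ) ^ 2)) (k := k) h1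
  unfold Sp
  rw [← h2]
  congr 1
  refine tprod_congr fun i => ?_
  rw [show n + k + 1 + i = n + 1 + (i + k) by ring]

end Pool.Agent.Q240.CD
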