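import Pool.Agent.Q240.CD.Tr
import Pool.Agent.Q177.CD2.Rep

set_option autoImplicit false

/-! # Project CD: every polynomial of degree at most `2 n` times `S` is the transform of a trigonometric polynomial -/

open Polynomial Filter Topology Finset MeasureTheory Complex

namespace Pool.Agent.Q240.CD

lemma TT_sum {a : ℝ} {β : Type} (s : Finset β) (F : β → ℝ → ℂ) (hF : ∀ b ∈ s, Y23.Fa a (F b)) (w : ℂ) :
    Y23.TT (fun x => ∑ b ∈ s, F b x) w = ∑ b ∈ s, Y23.TT (F b) w ∧ Y23.Fa a (fun x => ∑ b ∈ s, F b x) := by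
  classical
  induction s using Finset.induction_on with
  | empty =>
    refine ⟨?_, by simpa using Y23.Fa.zero⟩
    simp [Y23.TT]
  | insert b s hb ih =>
    obtain ⟨h1, h2⟩ := ih fun c hc => hF c (Finset.mem_insert_of_mem hc)
    have h3 := hF b (Finset.mem_insert_self b s)
    have e : (fun x => ∑ b ∈ insert b s, F b x) = fun x => F b x + ∑ b ∈ s, F b x := by
      funext x
      rw [Finset.sum_insert hb]
    rw [e, Finset.sum_insert hb]
    exact ⟨by rw [Y23.TT_add h3 h2, h1], h3.add h2⟩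

theorem trigInv (hRepInv : S_RepInv) : S_TrigInv := by
  intro a n P ha hP
  obtain ⟨f, hf, h1⟩ := hRepInv a n P ha hP
  set c : ℤ → ℂ := fun k => Y23.TT f (Y23.G.F.nd a (-k)) / (2 * a) with hc
  set g : ℝ → ℂ := fun x => if |x| ≤ a then ∑ k ∈ Finset.Icc (-(n : ℤ)) n, c k * cexp ((Real.pi * k * x / a : ℝ) * I) else 0 with hg
  have hgT : Tg a n g := ⟨c, fun x => rfl⟩
  have ha0 : (a : ℂ) ≠ 0 := by exact_mod_cast ha.ne'
  have hgF := (Tg_Hn ha hgT).1
  have hgs : g = fun x => ∑ k ∈ Finset.Icc (-(n : ℤ)) n, c k * Y23.G.F.ek a (-k) x := by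
    funext x
    simp only [hg]
    by_cases hx : |x| ≤ a
    · rw [if_pos hx]
      refine Finset.sum_congr rfl fun k _ => ?_
      unfold Y23.G.F.ek Y23.G.F.box Y23.G.F.nd
      rw [Set.indicator_of_mem (show x ∈ Set.Icc (-a) a from abs_le.1 hx), one_mul]
      congr 2
      push_cast
      ring
    · rw [if_neg hx]
      symm
      refine Finset.sum_eq_zero fun k _ => ?_
      unfold Y23.G.F.ek Y23.G.F.box
      rw [Set.indicator_of_notMem (show x ∉ Set.Icc (-a) a from fun h => hx (abs_le.2 h)), zero_mul, mul_zero]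
  have hnode : ∀ j : ℤ, j.natAbs ≤ n → Y23.TT g (Y23.G.F.nd a j) = Y23.TT f (Y23.G.F.nd a j) := by
    intro j hj
    rw [hgs, (TT_sum (a := a) _ (fun k x => c k * Y23.G.F.ek a (-k) x) (fun k _ => (Y23.G.F.Fa_ek (-k)).smul (c k)) _).1]
    rw [Finset.sum_eq_single (-j)]
    · rw [Y23.TT_smul, neg_neg, Y23.G.F.TT_ek_self ha, hc]
      simp only [neg_neg]
      field_simp
    · intro k _ hk
      rw [Y23.TT_smul, Y23.G.F.TT_ek_nd ha (fun h => hk (by omega)), mul_zero]
    · intro h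
      exfalso
      apply h
      rw [Finset.mem_Icc]
      omega
  refine ⟨g, hgT, fun z => ?_⟩
  rw [← h1]
  have h2 : ∀ k : ℤ, Y23.TT (fun x => g x - f x) (Y23.G.F.nd a k) = 0 := by
    intro k
    rw [Y23.TT_sub hgF hf.1]
    by_cases hk : k.natAbs ≤ n
    · rw [hnode k hk, sub_self]
    · have hlt : ((n : ℕ) : ℕ∞) < (k.natAbs : ℕ∞) := by
        exact_mod_cast not_le.1 hk
      rw [(Tg_Hn ha hgT).2.2 k hlt, hf.2.2 k hlt, sub_zero]
  have h3 := Pool.Agent.Q177.CD2.TT_zero_of_nodes ha (hgF.sub hf.1) h2 (Complex.I * z)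
  rw [Y23.TT_sub hgF hf.1] at h3
  exact sub_eq_zero.1 h3

end Pool.Agent.Q240.CD
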