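import Pool.Agent.Q240.CD.All
import Pool.Agent.Q240.CD.TrInv
import Pool.Agent.Q240.CD.SpR
import Pool.Agent.Q240.CD.RepInv
import Pool.Agent.Q225.CD.Neg
import Pool.Agent.Q24.CD.SumZ
import Pool.Agent.Q24.CD.Lin
import Pool.Agent.Q24.CD.PosZ
import Pool.Agent.Q202.CD.NoReal
import Pool.Agent.Q177.CD2.Enum
import Pool.Agent.Q128.CD.XiP
import Pool.Agent.Q210.CD.ZSz

set_option autoImplicit false

/-! # Project CD: all the jobs together -/

namespace Pool.Agent.Q240.CD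

theorem a_repInv : S_RepInv := repInv a_spB
theorem a_neg : S_Neg := Pool.Agent.Q225.CD.neg
theorem a_sumZ : S_SumZ := Pool.Agent.Q24.CD.sumZ a_inty
theorem a_lin : S_Lin := Pool.Agent.Q24.CD.lin a_sumZ a_inty
theorem a_form : S_Form := Pool.Agent.Q24.CD.form a_spB a_sumZ a_inty
theorem a_limLZ : S_LimLZ := Pool.Agent.Q24.CD.limLZ a_limSum a_sumZ
theorem a_posZ : S_PosZ := Pool.Agent.Q24.CD.posZ
theorem a_noReal : S_NoReal := Pool.Agent.Q202.CD.noReal
theorem a_xiP : S_XiP := Pool.Agent.Q128.CD.xiP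
theorem a_zs : S_ZSz := Pool.Agent.Q210.CD.zsz a_noReal
theorem a_rep : S_Rep := Pool.Agent.Q177.CD2.rep a_spB a_repInv
theorem a_enum : S_Enum := Pool.Agent.Q177.CD2.enum a_posZ a_repInv a_sumZ a_noReal
theorem a_trigInv : S_TrigInv := trigInv a_repInv
theorem a_thB : S_ThB := thB a_spB a_repInv a_rep a_lin a_form a_limLZ a_limInt a_neg a_quad a_dense a_zs spR
theorem a_thA : S_ThA := thA a_spB a_repInv a_rep a_form a_sumZ a_posZ a_limS a_wtsZ a_famZ a_mainA

end Pool.Agent.Q240.CD
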