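import Pool.Agent.Q240.CD.ThA

set_option autoImplicit false

/-! # Project CD: explicit trigonometric polynomials -/

open Polynomial Filter Topology Finset MeasureTheory Complex
open Pool.Agent.H24R2.JP (XX)

namespace Pool.Agent.Q240.CD

/-- explicit trigonometric polynomials on `[-a, a]` -/
def Tg (a : ℝ) (n : ℕ) (f : ℝ → ℂ) : Prop := ∃ c : ℤ → ℂ, ∀ x : ℝ,
  f x = if |x| ≤ a then ∑ k ∈ Finset.Icc (-(n : ℤ)) n, c k * cexp ((Real.pi * k * x / a : ℝ) * I) else 0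

/-- **TrigInv** -/
def S_TrigInv : Prop := ∀ (a : ℝ) (n : ℕ) (P : ℂ[X]), 0 < a → P.natDegree ≤ 2 * n →
  ∃ f : ℝ → ℂ, Tg a n f ∧ ∀ z : ℂ, Y23.TT f (Complex.I * z) = P.eval z * Sp a n z

lemma Tg_ek {a : ℝ} {n : ℕ} {f : ℝ → ℂ} (hf : Tg a n f) : ∃ c : ℤ → ℂ,
    f = fun x => ∑ k ∈ Finset.Icc (-(n : ℤ)) n, c k * Y23.G.F.ek a (-k) x := by
  obtain ⟨c, hc⟩ := hf
  refine ⟨c, ?_⟩
  funext x
  rw [hc]
  by_cases hx : |x| ≤ a
  · rw [if_pos hx]
    refine Finset.sum_congr rfl fun k _ => ?_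
    unfold Y23.G.F.ek Y23.G.F.box Y23.G.F.nd
    rw [Set.indicator_of_mem (show x ∈ Set.Icc (-a) a from abs_le.1 hx), one_mul]
    congr 2
    push_cast
    ring
  · rw [if_neg hx]
    symm
    refine Finset.sum_eq_zero fun k _ => ?_
    unfold Y23.G.F.ek Y23.G.F.box
    rw [Set.indicator_of_notMem (show x ∉ Set.Icc (-a) a from fun h => hx (abs_le.2 h)), zero_mul, mul_zero]

lemma sum_Hn {a : ℝ} {ν : ℕ∞} {β : Type} (s : Finset β) (F : β → ℝ → ℂ) (hF : ∀ b ∈ s, Y23.G.F.Hn a ν (F b)) :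
    Y23.G.F.Hn a ν (fun x => ∑ b ∈ s, F b x) := by
  classical
  induction s using Finset.induction_on with
  | empty => simpa using Y23.G.F.Hn.zero
  | insert b s hb ih =>
    have h1 := (hF b (Finset.mem_insert_self b s)).add (ih fun c hc => hF c (Finset.mem_insert_of_mem hc))
    have e : (fun x => ∑ b ∈ insert b s, F b x) = fun x => F b x + ∑ b ∈ s, F b x := by
      funext x
      rw [Finset.sum_insert hb]
    rw [e]
    exact h1

lemma Tg_Hn {a : ℝ} (ha : 0 < a) {n : ℕ} {f : ℝ → ℂ} (hf : Tg a n f) : Y23.G.F.Hn a (n : ℕ∞) f := by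
  obtain ⟨c, rfl⟩ := Tg_ek hf
  refine sum_Hn _ _ fun k hk => ?_
  refine (Y23.G.F.Hn_ek ha ?_).smul (c k)
  rw [Finset.mem_Icc] at hk
  have : (-k).natAbs ≤ n := by omega
  exact_mod_cast this

/-- every element of the domain has the transform of a trigonometric polynomial -/
lemma Hn_Tg (hRep : S_Rep) (hT : S_TrigInv) {a : ℝ} (ha : 0 < a) {n : ℕ} {f : ℝ → ℂ} (hf : Y23.G.F.Hn a (n : ℕ∞) f) :
    ∃ f' : ℝ → ℂ, Tg a n f' ∧ ∀ w, Y23.TT f' w = Y23.TT f w := by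
  obtain ⟨P, hP, h1⟩ := hRep a n f ha hf
  obtain ⟨f', hf', h2⟩ := hT a n P ha hP
  refine ⟨f', hf', fun w => ?_⟩
  have e : Complex.I * (-Complex.I * w) = w := by
    rw [← mul_assoc]
    simp
  rw [← e, h1, h2]

lemma QQ_congr {f g : ℝ → ℂ} (h : ∀ w, Y23.TT f w = Y23.TT g w) : Y23.QQ f = Y23.QQ g := by
  unfold Y23.QQ Y23.GG
  simp only [h]

lemma N2_congr {a : ℝ} {f g : ℝ → ℂ} (hf : Y23.Fa a f) (hg : Y23.Fa a g) (h : ∀ w, Y23.TT f w = Y23.TT g w) :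
    Y23.N2 f = Y23.N2 g := by
  have h1 := Y23.plancherel hf
  have h2 := Y23.plancherel hg
  simp only [h] at h1
  rw [h1] at h2
  have := Real.pi_pos
  have h3 : (2 * Real.pi) * Y23.N2 f = (2 * Real.pi) * Y23.N2 g := h2
  exact mul_left_cancel₀ (by positivity) h3

/-- ground states among the trigonometric polynomials -/
lemma Gd_iff (hRep : S_Rep) (hT : S_TrigInv) {a : ℝ} (ha : 0 < a) {n : ℕ} {f : ℝ → ℂ} (hf : Tg a n f) :
    Gd a n f ↔ ∀ g : ℝ → ℂ, Tg a n g → Y23.QQ f * Y23.N2 g ≤ Y23.QQ g * Y23.N2 f := by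
  constructor
  · intro h g hg
    exact h.2 g (Tg_Hn ha hg)
  · intro h
    refine ⟨Tg_Hn ha hf, fun g hg => ?_⟩
    obtain ⟨g', hg', h1⟩ := Hn_Tg hRep hT ha hg
    have h2 := h g' hg'
    rwa [QQ_congr h1, N2_congr (Tg_Hn ha hg').1 hg.1 h1] at h2

/-- trigonometric polynomials are determined by their transforms -/
lemma Tg_ext {a : ℝ} (ha : 0 < a) {n : ℕ} {f g : ℝ → ℂ} (hf : Tg a n f) (hg : Tg a n g) (h : ∀ w, Y23.TT f w = Y23.TT g w) :
    f = g := by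
  have hfF := (Tg_Hn ha hf).1
  have hgF := (Tg_Hn ha hg).1
  obtain ⟨c, hc⟩ := hf
  obtain ⟨d, hd⟩ := hg
  have hsub : Y23.N2 (fun x => f x - g x) = 0 := by
    refine Y23.N2_zero_of_TT (hfF.sub hgF) fun w => ?_
    rw [Y23.TT_sub hfF hgF, h, sub_self]
  set u : ℝ → ℂ := fun x => ∑ k ∈ Finset.Icc (-(n : ℤ)) n, (c k - d k) * cexp ((Real.pi * k * x / a : ℝ) * I) with hu
  have hdiff : ∀ x, f x - g x = if |x| ≤ a then u x else 0 := by
    intro x
    rw [hc, hd]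
    by_cases hx : |x| ≤ a
    · rw [if_pos hx, if_pos hx, if_pos hx, hu]
      simp only
      rw [← Finset.sum_sub_distrib]
      exact Finset.sum_congr rfl fun k _ => by ring
    · rw [if_neg hx, if_neg hx, if_neg hx, sub_zero]
  have hucont : Continuous u := by
    rw [hu]
    fun_prop
  have hae : (fun x => ‖f x - g x‖ ^ 2) =ᵐ[volume] 0 := by
    refine (integral_eq_zero_iff_of_nonneg (fun x => by positivity) ?_).1 hsub
    exact (memLp_two_iff_integrable_sq_norm (hfF.sub hgF).1.1).1 (hfF.sub hgF).1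
  have hu0 : ∀ x ∈ Set.Ioo (-a) a, u x = 0 := by
    have h1 : (fun x => u x) =ᵐ[volume.restrict (Set.Ioo (-a) a)] fun _ => 0 := by
      rw [Filter.EventuallyEq, ae_restrict_iff' measurableSet_Ioo]
      filter_upwards [hae] with x hx hxm
      have h2 : ‖f x - g x‖ ^ 2 = 0 := hx
      have h3 : f x - g x = 0 := norm_eq_zero.1 (pow_eq_zero_iff two_ne_zero |>.1 h2)
      rw [hdiff, if_pos (abs_le.2 ⟨hxm.1.le, hxm.2.le⟩)] at h3
      exact h3
    intro x hx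
    exact Measure.eqOn_open_of_ae_eq (μ := volume) h1 isOpen_Ioo hucont.continuousOn continuousOn_const hx
  have hu1 : ∀ x ∈ Set.Icc (-a) a, u x = 0 := by
    intro x hx
    have h2 : x ∈ closure (Set.Ioo (-a) a) := by
      rw [closure_Ioo (by linarith)]
      exact hx
    have h3 : IsClosed {x : ℝ | u x = 0} := isClosed_eq hucont continuous_const
    exact (closure_minimal (fun y hy => hu0 y hy) h3) h2
  funext x
  by_cases hx : |x| ≤ a
  · have h4 := hdiff x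
    rw [if_pos hx, hu1 x (abs_le.1 hx)] at h4
    exact sub_eq_zero.1 h4
  · rw [hc, hd, if_neg hx, if_neg hx]

lemma Tg_smul {a : ℝ} {n : ℕ} {f : ℝ → ℂ} (hf : Tg a n f) (b : ℂ) : Tg a n (fun x => b * f x) := by
  obtain ⟨c, hc⟩ := hf
  refine ⟨fun k => b * c k, fun x => ?_⟩
  simp only
  rw [hc]
  by_cases hx : |x| ≤ a
  · rw [if_pos hx, if_pos hx, Finset.mul_sum]
    exact Finset.sum_congr rfl fun k _ => by ring
  · rw [if_neg hx, if_neg hx, mul_zero]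

lemma Tg_neg {a : ℝ} {n : ℕ} {f : ℝ → ℂ} (hf : Tg a n f) : Tg a n (fun x => f (-x)) := by
  obtain ⟨c, hc⟩ := hf
  refine ⟨fun k => c (-k), fun x => ?_⟩
  simp only
  rw [hc, abs_neg]
  by_cases hx : |x| ≤ a
  · rw [if_pos hx, if_pos hx]
    refine Finset.sum_bij (fun k _ => -k) (fun k hk => ?_) (fun k _ l _ h => by omega) (fun k hk => ⟨-k, ?_, by omega⟩)
      (fun k _ => ?_)
    · rw [Finset.mem_Icc] at hk ⊢; omega
    · rw [Finset.mem_Icc] at hk ⊢; omega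
    · rw [neg_neg]
      congr 2
      push_cast
      ring
  · rw [if_neg hx, if_neg hx]

/-- near a point where the continuous limit does not vanish there are no zeros -/
lemma tlu_nozero {ι : Type} {l : Filter ι} {F : ι → ℂ → ℂ} {G : ℂ → ℂ} (h : TendstoLocallyUniformly F G l) {s0 : ℂ}
    (hc : ContinuousAt G s0) (h0 : G s0 ≠ 0) : ∃ δ : ℝ, 0 < δ ∧ ∀ᶠ i in l, ∀ s : ℂ, ‖s - s0‖ < δ → F i s ≠ 0 := by
  have hpos : 0 < ‖G s0‖ / 2 := by positivity
  obtain ⟨t, ht, h1⟩ := (Metric.tendstoLocallyUniformly_iff.1 h) (‖G s0‖ / 2) hpos s0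
  have h2 : ∀ᶠ s in 𝓝 s0, dist (G s) (G s0) < ‖G s0‖ / 2 := Metric.tendsto_nhds.1 hc _ hpos
  obtain ⟨δ, hδ, h3⟩ := Metric.eventually_nhds_iff.1 ((show ∀ᶠ s in 𝓝 s0, s ∈ t from ht).and h2)
  refine ⟨δ, hδ, ?_⟩
  filter_upwards [h1] with i hi s hs hF
  obtain ⟨h4, h5⟩ := h3 (y := s) (by rwa [dist_eq_norm])
  have h6 := hi s h4
  rw [hF, dist_zero_right] at h6
  rw [dist_eq_norm] at h5
  have h7 := norm_sub_norm_le (G s0) (G s0 - G s)
  have h8 : G s0 - (G s0 - G s) = G s := by ring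
  have h9 : ‖G s0‖ ≤ ‖G s‖ + ‖G s0 - G s‖ := by
    calc ‖G s0‖ = ‖G s + (G s0 - G s)‖ := by congr 1; ring
      _ ≤ _ := norm_add_le _ _
  rw [norm_sub_rev] at h9
  linarith

end Pool.Agent.Q240.CD
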