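import Pool.Agent.Q240.CD.MainA
import Pool.Agent.Q280.CD2.Ext
import Pool.Agent.Q95.CD.Zer
import Pool.Agent.Q237.CD.Kb
import Pool.Agent.Q280.CD2.Del
import Pool.Agent.Q225.CD.Q0
import Pool.Agent.Q280.CD2.Low
import Pool.Agent.Q16.CD.Gap
import Pool.Agent.Q61.CD.Oeb
import Pool.Agent.Q61.CD.Even
import Pool.Agent.Q237.CD.Vit
import Pool.Agent.Q16.CD.Uni
import Pool.Agent.Q195.CD.Quad
import Pool.Agent.Q277.CD.Gau
import Pool.Agent.Q280.CD2.Dense
import Pool.Agent.Q237.CD.SpB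
import Pool.Agent.Q65.CD.SpP
import Pool.Agent.Q237.CD.Near
import Pool.Agent.Q65.CD.Far
import Pool.Agent.Q289.CD.LimS
import Pool.Agent.Q289.CD.Dom
import Pool.Agent.Q289.CD.Lim
import Pool.Agent.Q202.CD.Inty
import Pool.Agent.Q202.CD.Mj
import Pool.Agent.Q225.CD.WtsZ
import Pool.Agent.Q128.CD.FamZ

set_option autoImplicit false

/-! # Project CD: all the jobs of part 1 and part 2 together -/

namespace Pool.Agent.Q240.CD

theorem a_zer : S_Zer := Pool.Agent.Q95.CD.zer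
theorem a_ext : S_Ext := Pool.Agent.Q280.CD2.ext
theorem a_kb : S_Kb := Pool.Agent.Q237.CD.kb a_zer
theorem a_del : S_Del := Pool.Agent.Q280.CD2.del
theorem a_q0 : S_Q0 := Pool.Agent.Q225.CD.q0conv a_zer a_del
theorem a_low : S_Q0low := Pool.Agent.Q280.CD2.q0low a_zer
theorem a_gap : S_Gap := Pool.Agent.Q16.CD.gap a_kb a_del
theorem a_oeb : S_Oeb := Pool.Agent.Q61.CD.oeb a_kb a_low
theorem a_odd : S_Odd := Pool.Agent.Q61.CD.odd a_kb a_gap a_oeb
theorem a_even : S_Even := Pool.Agent.Q61.CD.even a_kb a_gap a_oeb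
theorem a_vit : S_Vit := Pool.Agent.Q237.CD.vit
theorem a_uni : S_Uni := Pool.Agent.Q16.CD.uni
theorem a_spB : S_SpB := Pool.Agent.Q237.CD.spB
theorem a_gcb : S_GCb := Pool.Agent.Q237.CD.gcb
theorem a_mainA : S_MainA := mainA a_ext a_q0 a_low a_odd a_even a_vit a_uni a_gcb
theorem a_quad : S_Quad := Pool.Agent.Q195.CD.quad
theorem a_dense : S_Dense := Pool.Agent.Q280.CD2.dense Pool.Agent.Q277.CD.con1 Pool.Agent.Q277.CD.con2
theorem a_spP : S_SpP := Pool.Agent.Q65.CD.spp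
theorem a_sn : S_Sn := Pool.Agent.Q237.CD.sn_bounds
theorem a_near : S_Near := Pool.Agent.Q237.CD.near
theorem a_far : S_Far := Pool.Agent.Q65.CD.far
theorem a_limS : S_LimS := Pool.Agent.Q289.CD.limS a_sn
theorem a_domK : S_DomK := Pool.Agent.Q289.CD.domK a_near a_far a_sn
theorem a_limSum : S_LimSum := Pool.Agent.Q289.CD.limSum a_limS a_domK
theorem a_limInt : S_LimInt := Pool.Agent.Q289.CD.limInt a_spB a_limS a_domK
theorem a_inty : S_Inty := Pool.Agent.Q202.CD.inty a_spB a_far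
theorem a_mj : S_Mj := Pool.Agent.Q202.CD.mj_bound
theorem a_wtsZ : S_WtsZ := Pool.Agent.Q225.CD.wtsZ a_spB a_near a_far a_sn a_limS a_mj a_inty
theorem a_famZ : S_FamZ := Pool.Agent.Q128.CD.famZ a_spB a_inty a_limSum a_limS a_mj

end Pool.Agent.Q240.CD
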