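import Mathlib

set_option autoImplicit false

/-! # Project CD: the diagonal argument -/

open Filter Topology

namespace Pool.Agent.Q240.CD

/-- uniformity over all choices -/
lemma unif_choice {β : Type} (Gr : ℝ → β → Prop) (hex : ∀ a : ℝ, 0 < a → ∃ f, Gr a f) (F : β → ℂ → ℂ) (G : ℂ → ℂ)
    (h : ∀ f : ℝ → β, (∀ a, 0 < a → Gr a (f a)) → TendstoLocallyUniformly (fun a => F (f a)) G atTop) (R ε : ℝ) (hε : 0 < ε) :
    ∃ A : ℝ, ∀ a, A ≤ a → ∀ f, Gr a f → ∀ s : ℂ, ‖s‖ ≤ R → ‖F f s - G s‖ ≤ ε := by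
  classical
  by_contra hcon
  push Not at hcon
  -- a bad choice
  set f : ℝ → β := fun a => if hb : ∃ f, Gr a f ∧ ∃ s : ℂ, ‖s‖ ≤ R ∧ ε < ‖F f s - G s‖ then hb.choose else
    if ha : 0 < a then (hex a ha).choose else (hex 1 one_pos).choose with hf
  have hfG : ∀ a, 0 < a → Gr a (f a) := by
    intro a ha
    simp only [hf]
    by_cases hb : ∃ f, Gr a f ∧ ∃ s : ℂ, ‖s‖ ≤ R ∧ ε < ‖F f s - G s‖
    · rw [dif_pos hb]
      exact hb.choose_spec.1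
    · rw [dif_neg hb, dif_pos ha]
      exact (hex a ha).choose_spec
  have h1 := h f hfG
  have h2 : TendstoUniformlyOn (fun a => F (f a)) G atTop (Metric.closedBall 0 R) :=
    (tendstoLocallyUniformlyOn_iff_tendstoUniformlyOn_of_compact (isCompact_closedBall 0 R)).1 h1.tendstoLocallyUniformlyOn
  obtain ⟨A, hA⟩ := eventually_atTop.1 (Metric.tendstoUniformlyOn_iff.1 h2 ε hε)
  obtain ⟨a, ha, g, hg, s, hs, hbad⟩ := hcon (max A 1)
  have hb : ∃ f, Gr a f ∧ ∃ s : ℂ, ‖s‖ ≤ R ∧ ε < ‖F f s - G s‖ := ⟨g, hg, s, hs, hbad⟩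
  obtain ⟨h3, s', h4, h5⟩ := hb.choose_spec
  have h6 := hA a ((le_max_left _ _).trans ha) s' (by simpa using h4)
  have h7 : f a = hb.choose := by
    simp only [hf]
    rw [dif_pos hb]
  rw [h7, dist_comm, dist_eq_norm] at h6
  linarith

lemma ceil_sq (κ : ℝ) (hκ : 0 < κ) : Tendsto (fun a : ℝ => ((⌈κ * a ^ 2⌉₊ : ℕ) : ℝ) / a ^ 2) atTop (𝓝 κ) := by
  have h1 := (tendsto_nat_ceil_mul_div_atTop hκ.le).comp (tendsto_pow_atTop (α := ℝ) (n := 2) two_ne_zero)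
  exact h1

/-- the diagonal argument -/
lemma diag {β : Type} (Gr : ℝ → ℕ → β → Prop) (hex : ∀ a : ℝ, 0 < a → ∀ m, ∃ f, Gr a m f) (F : β → ℂ → ℂ) (G : ℝ → ℂ → ℂ)
    (Φ : ℂ → ℂ)
    (h : ∀ (κ : ℝ) (n : ℝ → ℕ), 0 < κ → Tendsto (fun a : ℝ => (n a : ℝ) / a ^ 2) atTop (𝓝 κ) →
      ∀ f : ℝ → β, (∀ a, 0 < a → Gr a (n a) (f a)) → TendstoLocallyUniformly (fun a => F (f a)) (G κ) atTop)
    (hG : ∀ R ε : ℝ, 0 < ε → ∃ κ0 : ℝ, ∀ κ, κ0 ≤ κ → ∀ s : ℂ, ‖s‖ ≤ R → ‖G κ s - Φ s‖ ≤ ε) :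
    ∃ n : ℝ → ℕ, Tendsto (fun a : ℝ => (n a : ℝ) / a ^ 2) atTop atTop ∧
      ∀ f : ℝ → β, (∀ a, 0 < a → Gr a (n a) (f a)) → TendstoLocallyUniformly (fun a => F (f a)) Φ atTop := by
  classical
  have key : ∀ j : ℕ, ∃ A : ℝ, ∀ a, A ≤ a → ∀ f, Gr a ⌈((j : ℝ) + 1) * a ^ 2⌉₊ f → ∀ s : ℂ, ‖s‖ ≤ j →
      ‖F f s - G ((j : ℝ) + 1) s‖ ≤ 1 / ((j : ℝ) + 1) := by
    intro j
    have hj : (0 : ℝ) < (j : ℝ) + 1 := by positivity
    exact unif_choice (fun a f => Gr a ⌈((j : ℝ) + 1) * a ^ 2⌉₊ f) (fun a ha => hex a ha _) F (G ((j : ℝ) + 1))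
      (h _ _ hj (ceil_sq _ hj)) j (1 / ((j : ℝ) + 1)) (by positivity)
  choose A hA using key
  set J : ℝ → ℕ := fun a => Nat.findGreatest (fun j => A j ≤ a) ⌊a⌋₊ with hJ
  have hJge : ∀ j : ℕ, ∀ a : ℝ, A j ≤ a → (j : ℝ) ≤ a → j ≤ J a := by
    intro j a h1 h2
    exact Nat.le_findGreatest (Nat.le_floor h2) h1
  have hJA : ∀ a : ℝ, A 0 ≤ a → 0 ≤ a → A (J a) ≤ a := by
    intro a h1 h2
    exact Nat.findGreatest_spec (P := fun j => A j ≤ a) (Nat.zero_le _) h1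
  have hJt : Tendsto J atTop atTop := by
    rw [tendsto_atTop]
    intro j
    filter_upwards [eventually_ge_atTop (A j), eventually_ge_atTop (j : ℝ)] with a h1 h2
    exact hJge j a h1 h2
  have hJr : Tendsto (fun a => (J a : ℝ)) atTop atTop := tendsto_natCast_atTop_atTop.comp hJt
  refine ⟨fun a => ⌈((J a : ℝ) + 1) * a ^ 2⌉₊, ?_, ?_⟩
  · refine tendsto_atTop_mono' atTop ?_ hJr
    filter_upwards [eventually_gt_atTop 0] with a ha
    rw [le_div_iff₀ (by positivity)]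
    refine le_trans ?_ (Nat.le_ceil _)
    have : 0 ≤ a ^ 2 := sq_nonneg a
    linarith
  · intro f hf
    rw [Metric.tendstoLocallyUniformly_iff]
    intro ε hε s0
    obtain ⟨κ0, hκ0⟩ := hG (‖s0‖ + 1) (ε / 4) (by positivity)
    refine ⟨Metric.ball s0 1, Metric.ball_mem_nhds _ one_pos, ?_⟩
    have hinv : Tendsto (fun a => 1 / ((J a : ℝ) + 1)) atTop (𝓝 0) := by
      have h1 := (tendsto_atTop_add_const_right atTop (1 : ℝ) hJr).inv_tendsto_atTop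
      refine h1.congr fun a => ?_
      rw [Pi.inv_apply, one_div]
    filter_upwards [hJr.eventually_ge_atTop (‖s0‖ + 1), hJr.eventually_ge_atTop κ0, hinv.eventually_lt_const (by positivity : (0 : ℝ) < ε / 4),
      eventually_gt_atTop 0, eventually_ge_atTop (A 0)] with a h1 h2 h3 h4 h5 s hs
    have hs' : ‖s‖ ≤ ‖s0‖ + 1 := by
      have h6 := norm_add_le s0 (s - s0)
      rw [add_sub_cancel] at h6
      have h7 : ‖s - s0‖ < 1 := by rwa [Metric.mem_ball, dist_eq_norm] at hs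
      linarith
    have h6 := hA (J a) a (hJA a h5 h4.le) (f a) (hf a h4) s (hs'.trans h1)
    have h7 := hκ0 ((J a : ℝ) + 1) (by linarith) s hs'
    rw [dist_eq_norm]
    have h8 : Φ s - F (f a) s = -((F (f a) s - G ((J a : ℝ) + 1) s) + (G ((J a : ℝ) + 1) s - Φ s)) := by ring
    rw [h8, norm_neg]
    have h9 := norm_add_le (F (f a) s - G ((J a : ℝ) + 1) s) (G ((J a : ℝ) + 1) s - Φ s)
    linarith

end Pool.Agent.Q240.CD
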