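import Pool.Agent.Q240.CD.Stm
import Pool.Agent.Q240.CD.Stm2

set_option autoImplicit false

/-! # Project CD: assembly of part A -/

open Polynomial Filter Topology Finset MeasureTheory

namespace Pool.Agent.Q240.CD

lemma tlu_congr {ι : Type} {l : Filter ι} {F F' : ι → ℂ → ℂ} {G : ℂ → ℂ} (h : TendstoLocallyUniformly F G l)
    (he : ∀ᶠ i in l, ∀ z, F i z = F' i z) : TendstoLocallyUniformly F' G l := by
  intro u hu x
  obtain ⟨t, ht, h1⟩ := h u hu x
  refine ⟨t, ht, ?_⟩
  filter_upwards [h1, he] with i hi hei y hy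
  rw [← hei]
  exact hi y hy

lemma aeval_ofReal' (p : ℝ[X]) (t : ℝ) : aeval (t : ℂ) p = ((p.eval t : ℝ) : ℂ) := by
  have h := Polynomial.aeval_algebraMap_apply ℂ t p
  rw [Polynomial.coe_aeval_eq_eval] at h
  exact h

theorem mainA (hExt : S_Ext) (hQ0 : S_Q0) (hQ0low : S_Q0low) (hOdd : S_Odd) (hEven : S_Even) (hVit : S_Vit) (hUni : S_Uni)
    (hGC : S_GCb) : S_MainA := by
  intro ι l g μ N M u hF hW
  classical
  -- the extremal polynomials
  have hex : ∃ q0 : ι → ℝ[X], ∀ᶠ i in l, Ex g (M i) (N i) 0 (q0 i) := by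
    refine ⟨fun i => if h : PM g (M i) (N i) then Classical.choose (hExt g (M i) (N i) h 0) else 0, ?_⟩
    filter_upwards [hF.pm] with i hi
    rw [dif_pos hi]
    exact Classical.choose_spec (hExt g (M i) (N i) hi 0)
  obtain ⟨q0, hq0⟩ := hex
  by_cases hl : l = ⊥
  · subst hl
    refine ⟨by simp, fun P _ => ?_⟩
    intro v hv x
    exact ⟨Set.univ, univ_mem, by simp⟩
  have hne : l.NeBot := ⟨hl⟩
  obtain ⟨i0, hi0⟩ := hF.pm.exists
  have hmono := hi0.mono
  have hpos := hi0.pos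
  obtain ⟨r, c, hr, hrg, hc, hlow⟩ := hW.low
  have hodd := hOdd l g μ N M u hF hW q0 hq0
  have main : ∀ᶠ i in l, (∀ P : ℝ[X], P ≠ 0 → Gr g (M i) (u i) (N i) P → P.eval 0 ≠ 0 ∧ (∀ z : ℂ, aeval z P = 0 → z.im = 0) ∧
      ∃ q : ℝ[X], q ≠ 0 ∧ q.natDegree ≤ N i ∧ P = q.comp (X ^ 2) ∧
        Lam g (M i) (q * q) * Oe (u i) (q0 i) ≤ Lam g (M i) (q0 i * q0 i) * Oe (u i) q) ∧
      (∀ P P' : ℝ[X], P ≠ 0 → Gr g (M i) (u i) (N i) P → Gr g (M i) (u i) (N i) P' → ∃ c : ℝ, P' = C c * P) := by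
    filter_upwards [hF.pm, hq0, hlow, hW.int, hodd, hEven l g μ N M u hF hW q0 hq0 0 1 one_pos] with i h1 h2 h3 h4 h5 h6
    refine hUni g (M i) (N i) (u i) h1 (hW.nonneg i) (hW.even i) (hW.cont i) ?_ h4 (q0 i) h2 h5 ?_
    · have := h3 0 (by simpa using hr.le)
      linarith
    · intro q hq hd hle
      exact (h6 q hq hd hle).1
  refine ⟨?_, ?_⟩
  · filter_upwards [main] with i hi P hP hG
    obtain ⟨h1, h2, q, h3, h4, h5, h6⟩ := hi.1 P hP hG
    refine ⟨h1, ?_, fun P' hP' => hi.2 P P' hP hG hP'⟩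
    rw [h5, comp_assoc]
    congr 1
    simp
  · intro P hP
    -- the even parts
    have hq : ∃ q : ι → ℝ[X], ∀ᶠ i in l, q i ≠ 0 ∧ (q i).natDegree ≤ N i ∧ P i = (q i).comp (X ^ 2) ∧
        Lam g (M i) (q i * q i) * Oe (u i) (q0 i) ≤ Lam g (M i) (q0 i * q0 i) * Oe (u i) (q i) ∧
        (∀ z : ℂ, aeval z (P i) = 0 → z.im = 0) ∧ (P i).eval 0 ≠ 0 := by
      refine ⟨fun i => if h : ∃ q : ℝ[X], q ≠ 0 ∧ q.natDegree ≤ N i ∧ P i = q.comp (X ^ 2) ∧
        Lam g (M i) (q * q) * Oe (u i) (q0 i) ≤ Lam g (M i) (q0 i * q0 i) * Oe (u i) q then Classical.choose h else 0, ?_⟩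
      filter_upwards [main, hP] with i hi hPi
      obtain ⟨h1, h2, h3⟩ := hi.1 (P i) hPi.1 hPi.2
      rw [dif_pos h3]
      have h4 := Classical.choose_spec h3
      exact ⟨h4.1, h4.2.1, h4.2.2.1, h4.2.2.2, h2, h1⟩
    obtain ⟨q, hq⟩ := hq
    obtain ⟨hGd, hG0, hGz, hGd', hGr, hGc⟩ := hGC g hmono hpos hF.gsum
    set T : ℝ := g 0 / 2 with hT
    have hT0 : 0 < T := by positivity
    have hTg : T < g 0 := by rw [hT]; linarith
    -- a positive lower bound
    have hmin : ∃ m : ℝ, 0 < m ∧ ∀ t : ℝ, 0 ≤ t → t ≤ T → m ≤ GG g t := by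
      obtain ⟨t0, ht0, hmin⟩ := isCompact_Icc.exists_isMinOn (Set.nonempty_Icc.2 hT0.le) hGc.continuousOn
      refine ⟨GG g t0, ?_, fun t h0 h1 => hmin ⟨h0, h1⟩⟩
      obtain ⟨i, hi1, hi2⟩ := (hF.pm.and hq0).exists
      exact (hQ0low g (M i) (N i) hi1 hF.gsum (q0 i) hi2 t0 ht0.1 (lt_of_le_of_lt ht0.2 hTg)).1
    obtain ⟨m, hm, hmin⟩ := hmin
    have hev : ∀ ε : ℝ, 0 < ε → ∀ᶠ i in l, ∀ t : ℝ, 0 ≤ t → t ≤ T →
        |(C (1 / (q i).eval 0) * q i).eval t - (q0 i).eval t| ≤ ε := by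
      intro ε hε
      filter_upwards [hq, hEven l g μ N M u hF hW q0 hq0 T ε hε] with i hi hi2 t h0 h1
      obtain ⟨h3, h4⟩ := hi2 (q i) hi.1 hi.2.1 hi.2.2.2.1
      have h5 := h4 t h0 h1
      have h6 : 0 < |(q i).eval 0| := abs_pos.2 h3
      have e : (C (1 / (q i).eval 0) * q i).eval t - (q0 i).eval t =
          ((q i).eval t - (q i).eval 0 * (q0 i).eval t) / (q i).eval 0 := by
        rw [eval_mul, eval_C]
        field_simp
      rw [e, abs_div, div_le_iff₀ h6]
      exact h5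
    have hq00 : ∀ᶠ i in l, (q i).eval 0 ≠ 0 := by
      filter_upwards [hq] with i hi
      have h1 := hi.2.2.2.2.2
      rw [hi.2.2.1] at h1
      simpa using h1
    have hv := hVit l g hmono hpos hF.gsum (fun i => C (1 / (q i).eval 0) * q i) T hT0 ?_ ?_ ?_
    · have h1 : TendstoLocallyUniformly (fun i (z : ℂ) => aeval (z ^ 2) (C (1 / (q i).eval 0) * q i)) (fun z => GC g (z ^ 2)) l := by
        have := hv.comp (fun z : ℂ => z ^ 2) (by fun_prop)
        exact this
      refine tlu_congr h1 ?_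
      filter_upwards [hq, hq00] with i hi h0 z
      have e0 : (P i).eval 0 = (q i).eval 0 := by rw [hi.2.2.1]; simp
      rw [e0, hi.2.2.1, map_mul, aeval_C, aeval_comp]
      simp only [map_pow, aeval_X, one_div]
      rw [div_eq_inv_mul]
      congr 1
      simp
    · filter_upwards [hq00] with i h0
      rw [eval_mul, eval_C]
      field_simp
    · filter_upwards [hq, hq00, hev (m / 2) (by positivity), hF.pm, hq0] with i hi h0 h1 hpm hqi z hz
      have hz' : aeval z (q i) = 0 := by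
        rw [map_mul, aeval_C] at hz
        rcases mul_eq_zero.1 hz with h | h
        · exfalso
          have : (1 / (q i).eval 0 : ℝ) = 0 := by
            have h2 : ((1 / (q i).eval 0 : ℝ) : ℂ) = 0 := h
            exact_mod_cast h2
          exact (one_div_ne_zero h0) this
        · exact h
      obtain ⟨w, hw⟩ : ∃ w : ℂ, w ^ 2 = z := IsAlgClosed.exists_pow_nat_eq z (by norm_num)
      have hw0 : aeval w (P i) = 0 := by
        rw [hi.2.2.1, aeval_comp]
        simp only [map_pow, aeval_X]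
        rw [hw]; exact hz'
      have hwim := hi.2.2.2.2.1 w hw0
      have hwr : w = (w.re : ℂ) := by
        apply Complex.ext <;> simp [hwim]
      have hzr : z = ((w.re ^ 2 : ℝ) : ℂ) := by
        rw [← hw, hwr]; push_cast; simp
      have hzre : z.re = w.re ^ 2 := by rw [hzr, Complex.ofReal_re]
      refine ⟨by rw [hzr, Complex.ofReal_im], ?_⟩
      by_contra hcon
      push Not at hcon
      have h2 : 0 ≤ z.re := by rw [hzre]; positivity
      have h3 := h1 z.re h2 hcon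
      have h4 : (q i).eval z.re = 0 := by
        have h5 : aeval z (q i) = (((q i).eval z.re : ℝ) : ℂ) := by
          have : z = ((z.re : ℝ) : ℂ) := by rw [hzre]; exact hzr
          conv_lhs => rw [this]
          exact aeval_ofReal' (q i) z.re
        rw [h5] at hz'
        exact_mod_cast hz'
      rw [eval_mul, h4, mul_zero, zero_sub, abs_neg] at h3
      have h6 := (hQ0low g (M i) (N i) hpm hF.gsum (q0 i) hqi z.re h2 (lt_of_le_of_lt hcon hTg)).2.1
      have h7 := hmin z.re h2 hcon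
      have h8 := le_abs_self ((q0 i).eval z.re)
      linarith
    · intro t h0 h1
      have h2 := hQ0 l g μ N M hF q0 hq0 t
      have h3 : Tendsto (fun i => (C (1 / (q i).eval 0) * q i).eval t - (q0 i).eval t) l (𝓝 0) := by
        rw [Metric.tendsto_nhds]
        intro ε hε
        filter_upwards [hev (ε / 2) (by positivity)] with i hi
        rw [Real.dist_eq, sub_zero]
        linarith [hi t h0 h1]
      have h4 := h3.add h2
      rw [zero_add] at h4
      refine h4.congr fun i => by ring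

end Pool.Agent.Q240.CD
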