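import Pool.Agent.Q240.CD.Stm3

set_option autoImplicit false

/-!
# Project CD: statements, part 4 (assembly)
-/

open Polynomial Filter Topology Finset MeasureTheory
open Pool.Agent.H24R2.JP (XX)

namespace Pool.Agent.Q240.CD

/-- **SpR**: splitting off finitely many factors (`Multipliable.prod_mul_tprod_nat_add` or similar). -/
def S_SpR : Prop := ∀ (a : ℝ) (n k : ℕ) (z : ℂ), 0 < a →
  Sp a n z = (∏ j ∈ range k, (1 - z ^ 2 / ((xk a (n + 1 + j) : ℝ) : ℂ) ^ 2)) * Sp a (n + k) z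

/-- a ground state of degree at most `n` -/
def Gd (a : ℝ) (n : ℕ) (f : ℝ → ℂ) : Prop := Y23.G.F.Hn a (n : ℕ∞) f ∧
  ∀ h : ℝ → ℂ, Y23.G.F.Hn a (n : ℕ∞) h → Y23.QQ f * Y23.N2 h ≤ Y23.QQ h * Y23.N2 f

/-- part B: if the Riemann hypothesis fails, the lowest eigenvalue tends to minus infinity, and the zeros are dense -/
def S_ThB : Prop := (∃ ρ : Y23.Zt, (ρ : ℂ).re ≠ 1 / 2) →
  ∀ (n : ℝ → ℕ) (κ : ℝ), 0 < κ → Tendsto (fun a : ℝ => (n a : ℝ) / a ^ 2) atTop (𝓝 κ) →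
  ∀ n' : ℝ → ℕ, (∀ᶠ a in atTop, n a ≤ n' a) →
    (∀ B : ℝ, ∀ᶠ a in atTop, ∃ f : ℝ → ℂ, Y23.G.F.Hn a (n' a : ℕ∞) f ∧ 0 < Y23.N2 f ∧ Y23.QQ f < -B * Y23.N2 f) ∧
    ∀ (s t : ℝ) (C : ℕ), s < t → ∀ᶠ a in atTop, ∀ f : ℝ → ℂ, Gd a (n' a) f →
      ∃ S : Finset ℝ, C ≤ S.card ∧ ∀ x ∈ S, s < x ∧ x < t ∧ Y23.TT f (Complex.I * x) = 0

/-- part A: under the Riemann hypothesis, ground states are even, unique, and converge -/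
def S_ThA : Prop := (∀ ρ : Y23.Zt, (ρ : ℂ).re = 1 / 2) → ∀ γ : ℕ → ℝ, StrictMono γ → 0 < γ 0 →
  (∀ j, 1 ≤ mz (γ j : ℂ)) → (Summable fun j => (mz (γ j : ℂ) : ℝ) / (γ j ^ 2) ^ (7 / 8 : ℝ)) →
  (∀ F : ℂ → ℝ, (Summable fun ρ : Y23.Zt => (Y23.mu ρ : ℝ) * F (zp ρ)) →
    HasSum (fun j => (mz (γ j : ℂ) : ℝ) * (F (γ j) + F (-(γ j : ℂ)))) (∑' ρ : Y23.Zt, (Y23.mu ρ : ℝ) * F (zp ρ))) →
  ∀ (n : ℝ → ℕ) (κ : ℝ), 0 < κ → Tendsto (fun a : ℝ => (n a : ℝ) / a ^ 2) atTop (𝓝 κ) →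
    (∀ᶠ a in atTop, ∀ f : ℝ → ℂ, Gd a (n a) f → Y23.N2 f ≠ 0 → Y23.TT f 0 ≠ 0 ∧ (∀ w, Y23.TT f (-w) = Y23.TT f w) ∧
      ∀ f' : ℝ → ℂ, Gd a (n a) f' → ∃ c : ℂ, ∀ w, Y23.TT f' w = c * Y23.TT f w) ∧
    ∀ f : ℝ → ℝ → ℂ, (∀ᶠ a in atTop, Gd a (n a) (f a) ∧ Y23.N2 (f a) ≠ 0) →
      TendstoLocallyUniformly (fun a (z : ℂ) => Y23.TT (f a) (Complex.I * z) / Y23.TT (f a) 0)
        (fun z => GC (fun j => γ j ^ 2) (z ^ 2) * Complex.exp (-(ck κ * z ^ 2))) atTop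

end Pool.Agent.Q240.CD
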