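import Pool.Agent.Q240.CD.ThB
import Pool.Agent.Q240.CD.MainA

set_option autoImplicit false

/-! # Project CD: assembly of part A for zeta -/

open Polynomial Filter Topology Finset MeasureTheory
open Pool.Agent.H24R2.JP (XX)

namespace Pool.Agent.Q240.CD

/-- the masses -/
noncomputable def Mg (γ : ℕ → ℝ) (n : ℝ → ℕ) (a : ℝ) (j : ℕ) : ℝ :=
  2 * (mz (γ j : ℂ) : ℝ) * Sr a (n a) (Real.sqrt (γ j ^ 2)) ^ 2

lemma OZ_Op (n : ℝ → ℕ) (a : ℝ) (P : ℝ[X]) : OZ a (n a) (P * P) = Op (wt n a) P := by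
  unfold OZ Op wt
  rw [← integral_const_mul]
  refine integral_congr_ae (Eventually.of_forall fun x => ?_)
  simp only [eval_mul]
  ring

lemma Lp_even (g M : ℕ → ℝ) (hg : ∀ j, 0 ≤ g j) (q : ℝ[X]) : Lp g M (q.comp (X ^ 2)) = Lam g M (q * q) := by
  unfold Lp Lam
  refine tsum_congr fun j => ?_
  have h1 : Real.sqrt (g j) ^ 2 = g j := Real.sq_sqrt (hg j)
  simp only [eval_comp, eval_pow, eval_X, eval_mul, neg_sq, h1]
  ring

lemma LZ_Lp (hSpB : S_SpB) (hSumZ : S_SumZ) {γ : ℕ → ℝ} (hγ : ∀ j, 0 < γ j)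
    (hF : ∀ F : ℂ → ℝ, (Summable fun ρ : Y23.Zt => (Y23.mu ρ : ℝ) * F (zp ρ)) →
      HasSum (fun j => (mz (γ j : ℂ) : ℝ) * (F (γ j) + F (-(γ j : ℂ)))) (∑' ρ : Y23.Zt, (Y23.mu ρ : ℝ) * F (zp ρ)))
    (n : ℝ → ℕ) {a : ℝ} (ha : 0 < a) (P : ℝ[X]) (hP : P.natDegree ≤ 2 * n a) :
    LZ a (n a) (P * P) = Lp (fun j => γ j ^ 2) (Mg γ n a) P := by
  have h1 := hF (fun z => (aeval z (P * P) * Sp a (n a) z ^ 2).re) (hSumZ.2.2.2 a (n a) (P * P) ha (natDegree_mul_self_le hP))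
  unfold LZ
  rw [← h1.tsum_eq]
  unfold Lp Mg
  refine tsum_congr fun j => ?_
  have e0 : Real.sqrt (γ j ^ 2) = γ j := Real.sqrt_sq (hγ j).le
  have hev : Sp a (n a) (-(γ j : ℂ)) = Sp a (n a) (γ j : ℂ) := (hSpB a (n a)).2.2.2.2.1 _
  have e1 : ∀ x : ℝ, (aeval (x : ℂ) (P * P) * ((Sr a (n a) (γ j) : ℝ) : ℂ) ^ 2).re = P.eval x ^ 2 * Sr a (n a) (γ j) ^ 2 := by
    intro x
    rw [aeval_real, ← Complex.ofReal_pow, ← Complex.ofReal_mul, Complex.ofReal_re, eval_mul]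
    ring
  have e2 : (-(γ j : ℂ)) = ((-γ j : ℝ) : ℂ) := by push_cast; rfl
  simp only
  rw [hev, (hSpB a (n a)).2.2.2.1 (γ j), e1, e2, e1, e0]
  ring

/-- the two real parts of a ground state -/
lemma gd_parts (hSpB : S_SpB) (hRepInv : S_RepInv) (hRep : S_Rep) (hForm : S_Form) (hSumZ : S_SumZ) {γ : ℕ → ℝ} (hγ : ∀ j, 0 < γ j)
    (hF : ∀ F : ℂ → ℝ, (Summable fun ρ : Y23.Zt => (Y23.mu ρ : ℝ) * F (zp ρ)) →
      HasSum (fun j => (mz (γ j : ℂ) : ℝ) * (F (γ j) + F (-(γ j : ℂ)))) (∑' ρ : Y23.Zt, (Y23.mu ρ : ℝ) * F (zp ρ)))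
    (n : ℝ → ℕ) {a : ℝ} (ha : 0 < a) {f : ℝ → ℂ} (hf : Gd a (n a) f) (hN : Y23.N2 f ≠ 0) :
    ∃ A B : ℝ[X], Gr (fun j => γ j ^ 2) (Mg γ n a) (wt n a) (n a) A ∧ Gr (fun j => γ j ^ 2) (Mg γ n a) (wt n a) (n a) B ∧
      (A ≠ 0 ∨ B ≠ 0) ∧ ∀ z : ℂ, Y23.TT f (Complex.I * z) = (aeval z A + Complex.I * aeval z B) * Sp a (n a) z := by
  obtain ⟨P, hP, h1⟩ := hRep a (n a) f ha hf.1
  obtain ⟨A, B, hA, hB, h2⟩ := split_re _ P hP
  have h3 : ∀ z : ℂ, Y23.TT f (Complex.I * z) = (aeval z A + Complex.I * aeval z B) * Sp a (n a) z := fun z => by rw [h1, h2]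
  obtain ⟨h4, h5⟩ := hForm a (n a) f A B ha hf.1 hA hB h3
  rw [LZ_Lp hSpB hSumZ hγ hF n ha A hA, LZ_Lp hSpB hSumZ hγ hF n ha B hB] at h4
  rw [OZ_Op, OZ_Op] at h5
  set LA := Lp (fun j => γ j ^ 2) (Mg γ n a) A with hLA
  set LB := Lp (fun j => γ j ^ 2) (Mg γ n a) B with hLB
  set OA := Op (wt n a) A with hOA
  set OB := Op (wt n a) B with hOB
  have hO : ∀ R : ℝ[X], 0 ≤ Op (wt n a) R := by
    intro R
    unfold Op wt
    exact integral_nonneg fun x => by positivity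
  have hR : ∀ R : ℝ[X], R.natDegree ≤ 2 * n a → (LA + LB) * Op (wt n a) R ≤ Lp (fun j => γ j ^ 2) (Mg γ n a) R * (OA + OB) := by
    intro R hR
    obtain ⟨h, hh, e1, e2, -⟩ := real_elem hRepInv hForm ha R hR
    have h6 := hf.2 h hh
    rw [h4, h5, e1, e2, LZ_Lp hSpB hSumZ hγ hF n ha R hR, OZ_Op] at h6
    exact h6
  have hNp : 0 < OA + OB := by
    rw [← h5]
    exact lt_of_le_of_ne (Y23.N2_nonneg f) (Ne.symm hN)
  have h6 := hR A hA
  have h7 := hR B hB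
  rw [← hLA, ← hOA] at h6
  rw [← hLB, ← hOB] at h7
  have h8 : LB * OA = LA * OB := by linarith
  have hOA0 := hO A
  have hOB0 := hO B
  rw [← hOA] at hOA0
  rw [← hOB] at hOB0
  refine ⟨A, B, ⟨hA, fun R hR' => ?_⟩, ⟨hB, fun R hR' => ?_⟩, ?_, h3⟩
  · have h9 := hR R hR'
    rw [← hLA, ← hOA]
    have h10 := mul_le_mul_of_nonneg_left h9 hOA0
    have h11 : OA * ((LA + LB) * Op (wt n a) R) = LA * Op (wt n a) R * (OA + OB) := by
      linear_combination Op (wt n a) R * h8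
    rw [h11] at h10
    have h12 : LA * Op (wt n a) R * (OA + OB) ≤ Lp (fun j => γ j ^ 2) (Mg γ n a) R * OA * (OA + OB) := by linarith
    exact le_of_mul_le_mul_right h12 hNp
  · have h9 := hR R hR'
    rw [← hLB, ← hOB]
    have h10 := mul_le_mul_of_nonneg_left h9 hOB0
    have h11 : OB * ((LA + LB) * Op (wt n a) R) = LB * Op (wt n a) R * (OA + OB) := by
      linear_combination -Op (wt n a) R * h8
    rw [h11] at h10
    have h12 : LB * Op (wt n a) R * (OA + OB) ≤ Lp (fun j => γ j ^ 2) (Mg γ n a) R * OB * (OA + OB) := by linarith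
    exact le_of_mul_le_mul_right h12 hNp
  · by_contra hcon
    push Not at hcon
    have e1 : OA = 0 := by rw [hOA, hcon.1]; simp [Op]
    have e2 : OB = 0 := by rw [hOB, hcon.2]; simp [Op]
    rw [e1, e2] at hNp
    simp at hNp

theorem thA (hSpB : S_SpB) (hRepInv : S_RepInv) (hRep : S_Rep) (hForm : S_Form) (hSumZ : S_SumZ) (hPosZ : S_PosZ)
    (hLimS : S_LimS) (hWts : S_WtsZ) (hFam : S_FamZ) (hMain : S_MainA) : S_ThA := by
  intro hRH γ hmono hpos hm1 hsum hF n κ hκ hn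
  have hγ : ∀ j, 0 < γ j := fun j => lt_of_lt_of_le hpos (hmono.monotone (Nat.zero_le j))
  set g : ℕ → ℝ := fun j => γ j ^ 2 with hg
  have hgm : StrictMono g := fun i j hij => pow_lt_pow_left₀ (hmono hij) (hγ i).le two_ne_zero
  have hg0 : 0 < g 0 := by simp only [hg]; exact pow_pos (hγ 0) 2
  have hgn : ∀ j, 0 ≤ g j := fun j => sq_nonneg _
  have hm1' : ∀ j, (1 : ℝ) ≤ (mz (γ j : ℂ) : ℝ) := fun j => by exact_mod_cast hm1 j
  have hs1 : Summable fun j => 1 / g j ^ (7 / 8 : ℝ) := by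
    refine Summable.of_nonneg_of_le (fun j => ?_) (fun j => ?_) hsum
    · exact div_nonneg zero_le_one (Real.rpow_nonneg (hgn j) _)
    · exact div_le_div_of_nonneg_right (hm1' j) (Real.rpow_nonneg (hgn j) _)
  have hW := hWts g hgm hg0 hs1 n κ hκ hn
  have hdef : ∀ᶠ a in atTop, ∀ q : ℝ[X], q.natDegree ≤ n a → q ≠ 0 →
      0 < Lam g (fun j => 2 * (mz (γ j : ℂ) : ℝ) * Sr a (n a) (Real.sqrt (g j)) ^ 2) (q * q) := by
    filter_upwards [eventually_gt_atTop 0] with a ha q hq hq0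
    by_contra hcon
    push Not at hcon
    have hd : (q.comp (X ^ 2)).natDegree ≤ 2 * n a := by
      rw [natDegree_comp, natDegree_X_pow]
      omega
    obtain ⟨f, hf, h1, -, h2⟩ := real_elem hRepInv hForm ha (q.comp (X ^ 2)) hd
    rw [LZ_Lp hSpB hSumZ hγ hF n ha _ hd, Lp_even _ _ hgn] at h1
    have h3 : Y23.QQ f ≤ 0 := by rw [h1]; exact hcon
    have h4 := hPosZ hRH a _ f ha hf h3
    -- so the polynomial vanishes on an interval
    have hx1 : 0 < xk a (n a + 1) := by unfold xk; positivity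
    have h5 : ∀ x : ℝ, x ∈ Set.Ioo 0 (xk a (n a + 1)) → (q.comp (X ^ 2)).eval x = 0 := by
      intro x hx
      have h6 := h2 (x : ℂ)
      rw [h4, aeval_real] at h6
      rcases mul_eq_zero.1 h6.symm with h7 | h7
      · exact_mod_cast h7
      · exfalso
        obtain ⟨k, -, hk⟩ := ((hSpB a (n a)).2.2.2.2.2.2 (x : ℂ)).1 h7
        have h8 : x ^ 2 = xk a (n a + 1 + k) ^ 2 := by exact_mod_cast hk
        have h9 : xk a (n a + 1) ≤ xk a (n a + 1 + k) := by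
          unfold xk
          refine div_le_div_of_nonneg_right ?_ ha.le
          refine mul_le_mul_of_nonneg_left ?_ Real.pi_pos.le
          push_cast
          have : (0 : ℝ) ≤ k := Nat.cast_nonneg k
          linarith
        have h10 : x ^ 2 < xk a (n a + 1 + k) ^ 2 := pow_lt_pow_left₀ (lt_of_lt_of_le hx.2 h9) hx.1.le two_ne_zero
        exact h10.ne h8
    have h6 : q.comp (X ^ 2) = 0 := by
      refine Polynomial.eq_zero_of_infinite_isRoot _ ((Set.Ioo_infinite hx1).mono fun x hx => ?_)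
      exact h5 x hx
    rcases comp_eq_zero_iff.1 h6 with h7 | h7
    · exact hq0 h7
    · have h8 := h7.2
      have h9 := congrArg natDegree h8
      rw [natDegree_X_pow, natDegree_C] at h9
      omega
  have hFm := hFam g (fun j => (mz (γ j : ℂ) : ℝ)) hgm hg0 hm1' hsum n κ hκ hn hdef
  obtain ⟨hM1, hM2⟩ := hMain atTop g _ n _ (wt n) hFm hW
  -- the shape of ground states
  have hshape : ∀ᶠ a in atTop, ∀ f : ℝ → ℂ, Gd a (n a) f → Y23.N2 f ≠ 0 → ∃ (P : ℝ[X]) (c : ℂ), P ≠ 0 ∧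
      Gr g (Mg γ n a) (wt n a) (n a) P ∧ c ≠ 0 ∧ ∀ z : ℂ, Y23.TT f (Complex.I * z) = c * aeval z P * Sp a (n a) z := by
    filter_upwards [hM1, eventually_gt_atTop 0] with a h1 ha f hf hN
    obtain ⟨A, B, hA, hB, hne, h2⟩ := gd_parts hSpB hRepInv hRep hForm hSumZ hγ hF n ha hf hN
    by_cases hA0 : A = 0
    · have hB0 : B ≠ 0 := by
        rcases hne with h | h
        · exact absurd hA0 h
        · exact h
      refine ⟨B, Complex.I, hB0, hB, Complex.I_ne_zero, fun z => ?_⟩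
      rw [h2, hA0]
      simp
    · obtain ⟨b, hb⟩ := (h1 A hA0 hA).2.2 B hB
      refine ⟨A, 1 + Complex.I * b, hA0, hA, ?_, fun z => ?_⟩
      · intro h
        have := congrArg Complex.re h
        simp at this
      · rw [h2, hb, map_mul, aeval_C]
        have : (algebraMap ℝ ℂ) b = (b : ℂ) := rfl
        rw [this]
        ring
  refine ⟨?_, ?_⟩
  · filter_upwards [hshape, hM1, eventually_gt_atTop 0] with a h1 h2 ha f hf hN
    obtain ⟨P, c, hP, hPG, hc, h3⟩ := h1 f hf hN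
    obtain ⟨h4, h5, h6⟩ := h2 P hP hPG
    have hw : ∀ w : ℂ, Complex.I * (-Complex.I * w) = w := by
      intro w
      rw [← mul_assoc]
      simp
    refine ⟨?_, fun w => ?_, fun f' hf' => ?_⟩
    · have h7 := h3 0
      rw [mul_zero, (hSpB a (n a)).2.2.1, mul_one] at h7
      rw [h7]
      refine mul_ne_zero hc ?_
      have h8 := aeval_real P 0
      rw [Complex.ofReal_zero] at h8
      rw [h8]
      exact_mod_cast h4
    · have e1 := h3 (-Complex.I * w)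
      have e2 := h3 (-(-Complex.I * w))
      rw [mul_neg, hw] at e2
      rw [hw] at e1
      rw [e1, e2, (hSpB a (n a)).2.2.2.2.1]
      congr 2
      conv_lhs => rw [← h5]
      rw [aeval_comp]
      simp
    · by_cases hN' : Y23.N2 f' = 0
      · exact ⟨0, fun w => by rw [Y23.TT_zero_of_N2 ha hf'.1.1 hN' w, zero_mul]⟩
      · obtain ⟨P', c', hP', hPG', hc', h3'⟩ := h1 f' hf' hN'
        obtain ⟨r, hr⟩ := h6 P' hPG'
        refine ⟨c' * r / c, fun w => ?_⟩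
        have e1 := h3 (-Complex.I * w)
        have e2 := h3' (-Complex.I * w)
        rw [hw] at e1 e2
        rw [e1, e2, hr, map_mul, aeval_C]
        have : (algebraMap ℝ ℂ) r = (r : ℂ) := rfl
        rw [this]
        field_simp
  · intro f hf
    classical
    have hP : ∃ P : ℝ → ℝ[X], ∀ᶠ a in atTop, (P a ≠ 0 ∧ Gr g (Mg γ n a) (wt n a) (n a) (P a)) ∧
        ∃ c : ℂ, c ≠ 0 ∧ ∀ z : ℂ, Y23.TT (f a) (Complex.I * z) = c * aeval z (P a) * Sp a (n a) z := by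
      refine ⟨fun a => if h : ∃ (P : ℝ[X]) (c : ℂ), P ≠ 0 ∧
        Gr g (Mg γ n a) (wt n a) (n a) P ∧ c ≠ 0 ∧ ∀ z : ℂ, Y23.TT (f a) (Complex.I * z) = c * aeval z P * Sp a (n a) z
        then Classical.choose h else 0, ?_⟩
      filter_upwards [hshape, hf] with a h1 h2
      have h3 := h1 (f a) h2.1 h2.2
      rw [dif_pos h3]
      obtain ⟨c, h4, h5, h6, h7⟩ := Classical.choose_spec h3
      exact ⟨⟨h4, h5⟩, c, h6, h7⟩
    obtain ⟨P, hP⟩ := hP
    have h1 := hM2 P (hP.mono fun a h => h.1)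
    have h2 := hLimS n κ hκ hn
    have hc2 : Continuous fun z : ℂ => Complex.exp (-(ck κ * z ^ 2)) := by fun_prop
    have hc1 : Continuous fun z : ℂ => GC g (z ^ 2) := by
      refine h1.continuous ?_
      refine Frequently.of_forall fun a => ?_
      exact (Polynomial.continuous_aeval (P a)).div_const _
    have h3 := h1.mul₀ h2 hc1 hc2
    refine tlu_congr h3 ?_
    filter_upwards [hP, hM1] with a h4 h5 z
    obtain ⟨⟨h6, h7⟩, c, hc, h8⟩ := h4
    have h9 := (h5 (P a) h6 h7).1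
    have h10 := h8 0
    rw [mul_zero, (hSpB a (n a)).2.2.1, mul_one] at h10
    have h11 := aeval_real (P a) 0
    rw [Complex.ofReal_zero] at h11
    rw [h11] at h10
    rw [h8, h10]
    have h12 : (((P a).eval 0 : ℝ) : ℂ) ≠ 0 := by exact_mod_cast h9
    change aeval z (P a) / (((P a).eval 0 : ℝ) : ℂ) * Sp a (n a) z = _
    field_simp

end Pool.Agent.Q240.CD
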