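import Pool.Agent.Q240.CD.Stm4

set_option autoImplicit false

/-! # Project CD: assembly of part B -/

open Polynomial Filter Topology Finset MeasureTheory
open Pool.Agent.H24R2.JP (XX)

namespace Pool.Agent.Q240.CD

lemma split_re (d : ℕ) (P : ℂ[X]) (hP : P.natDegree ≤ d) : ∃ A B : ℝ[X], A.natDegree ≤ d ∧ B.natDegree ≤ d ∧
    ∀ z : ℂ, P.eval z = aeval z A + Complex.I * aeval z B := by
  have hdeg : ∀ c : ℕ → ℝ, (∑ i ∈ range (d + 1), C (c i) * X ^ i : ℝ[X]).natDegree ≤ d := by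
    intro c
    refine natDegree_sum_le_of_forall_le _ _ fun i hi => ?_
    have := Finset.mem_range.1 hi
    exact (natDegree_C_mul_X_pow_le _ _).trans (by omega)
  refine ⟨∑ i ∈ range (d + 1), C ((P.coeff i).re) * X ^ i, ∑ i ∈ range (d + 1), C ((P.coeff i).im) * X ^ i,
    hdeg _, hdeg _, fun z => ?_⟩
  rw [eval_eq_sum_range' (lt_of_le_of_lt hP (Nat.lt_succ_self d)) z, map_sum, map_sum, mul_sum, ← sum_add_distrib]
  refine sum_congr rfl fun i _ => ?_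
  simp only [map_mul, map_pow, aeval_X, aeval_C]
  conv_lhs => rw [← Complex.re_add_im (P.coeff i)]
  have e1 : (algebraMap ℝ ℂ) (P.coeff i).re = ((P.coeff i).re : ℂ) := rfl
  have e2 : (algebraMap ℝ ℂ) (P.coeff i).im = ((P.coeff i).im : ℂ) := rfl
  rw [e1, e2]
  ring

lemma aeval_real (p : ℝ[X]) (t : ℝ) : aeval (t : ℂ) p = ((p.eval t : ℝ) : ℂ) := by
  have h := Polynomial.aeval_algebraMap_apply ℂ t p
  rw [Polynomial.coe_aeval_eq_eval] at h
  exact h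

lemma LZ_zero (a : ℝ) (n : ℕ) : LZ a n 0 = 0 := by simp [LZ]

lemma OZ_zero (a : ℝ) (n : ℕ) : OZ a n 0 = 0 := by simp [OZ]

lemma Hn_mono {a : ℝ} {n m : ℕ} (h : n ≤ m) {f : ℝ → ℂ} (hf : Y23.G.F.Hn a (n : ℕ∞) f) : Y23.G.F.Hn a (m : ℕ∞) f :=
  ⟨hf.1, hf.2.1, fun k hk => hf.2.2 k (lt_of_le_of_lt (by exact_mod_cast h) hk)⟩

lemma real_elem (hRepInv : S_RepInv) (hForm : S_Form) {a : ℝ} {n : ℕ} (ha : 0 < a) (A : ℝ[X]) (hA : A.natDegree ≤ 2 * n) :
    ∃ f : ℝ → ℂ, Y23.G.F.Hn a (n : ℕ∞) f ∧ Y23.QQ f = LZ a n (A * A) ∧ Y23.N2 f = OZ a n (A * A) ∧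
      ∀ z : ℂ, Y23.TT f (Complex.I * z) = aeval z A * Sp a n z := by
  obtain ⟨f, hf, h1⟩ := hRepInv a n (A.map (algebraMap ℝ ℂ)) ha ((natDegree_map_le).trans hA)
  have h2 : ∀ z : ℂ, Y23.TT f (Complex.I * z) = aeval z A * Sp a n z := by
    intro z
    rw [h1, eval_map_algebraMap]
  have h3 := hForm a n f A 0 ha hf hA (by simp) (fun z => by rw [h2]; simp)
  rw [mul_zero, LZ_zero, OZ_zero, add_zero, add_zero] at h3
  exact ⟨f, hf, h3.1, h3.2, h2⟩

lemma natDegree_mul_self_le {P : ℝ[X]} {n : ℕ} (h : P.natDegree ≤ 2 * n) : (P * P).natDegree ≤ 4 * n :=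
  natDegree_mul_le.trans (by omega)

lemma n_top {n : ℝ → ℕ} {κ : ℝ} (hκ : 0 < κ) (hn : Tendsto (fun a : ℝ => (n a : ℝ) / a ^ 2) atTop (𝓝 κ)) :
    Tendsto n atTop atTop := by
  have h1 : Tendsto (fun a : ℝ => (n a : ℝ) / a ^ 2 * a ^ 2) atTop atTop :=
    Tendsto.pos_mul_atTop hκ hn (tendsto_pow_atTop two_ne_zero)
  have h2 : Tendsto (fun a : ℝ => (n a : ℝ)) atTop atTop := by
    refine h1.congr' ?_
    filter_upwards [eventually_gt_atTop 0] with a ha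
    field_simp
  exact tendsto_natCast_atTop_iff.1 h2

/-- the quadrature -/
lemma quadZ (hRepInv : S_RepInv) (hRep : S_Rep) (hLin : S_Lin) (hForm : S_Form) (hQuad : S_Quad) (a : ℝ) (n : ℕ) (ha : 0 < a) :
    ∃ (lam : ℝ) (Z : Finset ℝ) (w : ℝ → ℝ), (∀ z, 0 ≤ w z) ∧
      (∀ h : ℝ → ℂ, Y23.G.F.Hn a (n : ℕ∞) h → lam * Y23.N2 h ≤ Y23.QQ h) ∧
      (∀ P : ℝ[X], P.natDegree + 1 ≤ 2 * n → LZ a n (P * P) - lam * OZ a n (P * P) = ∑ z ∈ Z, w z * P.eval z ^ 2) ∧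
      ∀ f : ℝ → ℂ, Gd a n f → ∀ z ∈ Z, Y23.TT f (Complex.I * z) = 0 := by
  obtain ⟨e, N, hK, hN, -⟩ := Y23.Z.structure_n (ν := (n : ℕ∞)) ha
  have heH : Y23.G.F.Hn a (n : ℕ∞) e := hK.1
  have hN0 : 0 < Y23.N2 e := lt_of_le_of_ne (Y23.N2_nonneg e) (Ne.symm hN)
  have hmin := (Y23.Z.Kn_iff ha heH).1 hK
  set lam : ℝ := Y23.QQ e / Y23.N2 e with hlam
  have hQe : Y23.QQ e = lam * Y23.N2 e := by rw [hlam]; field_simp
  have hlow : ∀ h : ℝ → ℂ, Y23.G.F.Hn a (n : ℕ∞) h → lam * Y23.N2 h ≤ Y23.QQ h := by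
    intro h hh
    have h1 := hmin h hh
    rw [hlam, div_mul_eq_mul_div, div_le_iff₀ hN0]
    exact h1
  obtain ⟨L, O, hLO⟩ := hLin a n ha
  set Q : ℝ[X] →ₗ[ℝ] ℝ := L - lam • O with hQ
  have hQv : ∀ p : ℝ[X], p.natDegree ≤ 4 * n → Q p = LZ a n p - lam * OZ a n p := by
    intro p hp
    rw [hQ, LinearMap.sub_apply, LinearMap.smul_apply, (hLO p hp).1, (hLO p hp).2, smul_eq_mul]
  have hQ0 : ∀ P : ℝ[X], P.natDegree ≤ 2 * n → 0 ≤ Q (P * P) := by
    intro P hP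
    obtain ⟨f, hf, h1, h2, -⟩ := real_elem hRepInv hForm ha P hP
    rw [hQv _ (natDegree_mul_self_le hP), ← h1, ← h2]
    have := hlow f hf
    linarith
  -- the null polynomials of a ground state
  have hnull : ∀ f : ℝ → ℂ, Y23.G.F.Hn a (n : ℕ∞) f → Y23.QQ f ≤ lam * Y23.N2 f → ∃ A B : ℝ[X], A.natDegree ≤ 2 * n ∧
      B.natDegree ≤ 2 * n ∧ Q (A * A) = 0 ∧ Q (B * B) = 0 ∧
      (∀ z : ℂ, Y23.TT f (Complex.I * z) = (aeval z A + Complex.I * aeval z B) * Sp a n z) ∧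
      Y23.N2 f = OZ a n (A * A) + OZ a n (B * B) := by
    intro f hf hle
    obtain ⟨P, hP, h1⟩ := hRep a n f ha hf
    obtain ⟨A, B, hA, hB, h2⟩ := split_re _ P hP
    have h3 : ∀ z : ℂ, Y23.TT f (Complex.I * z) = (aeval z A + Complex.I * aeval z B) * Sp a n z := by
      intro z
      rw [h1, h2]
    obtain ⟨h4, h5⟩ := hForm a n f A B ha hf hA hB h3
    have h6 := hQ0 A hA
    have h7 := hQ0 B hB
    have h8 : Q (A * A) + Q (B * B) ≤ 0 := by
      rw [hQv _ (natDegree_mul_self_le hA), hQv _ (natDegree_mul_self_le hB)]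
      rw [h4, h5] at hle
      linarith
    exact ⟨A, B, hA, hB, by linarith, by linarith, h3, h5⟩
  obtain ⟨A, B, hA, hB, hA0, hB0, -, hNe⟩ := hnull e heH hQe.le
  have hex : ∃ P : ℝ[X], P ≠ 0 ∧ P.natDegree ≤ 2 * n ∧ Q (P * P) = 0 := by
    by_cases h : A = 0
    · by_cases h' : B = 0
      · exfalso
        rw [h, h', mul_zero, OZ_zero] at hNe
        simp at hNe
        exact hN hNe
      · exact ⟨B, h', hB, hB0⟩
    · exact ⟨A, h, hA, hA0⟩
  obtain ⟨Z, w, hw, hq, hz⟩ := hQuad (2 * n) Q hQ0 hex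
  refine ⟨lam, Z, w, hw, hlow, fun P hP => ?_, fun f hf z hzZ => ?_⟩
  · rw [← hq P hP, hQv _ (natDegree_mul_self_le (by omega))]
  · have h1 : Y23.QQ f ≤ lam * Y23.N2 f := by
      have h2 := hf.2 e heH
      rw [hlam, div_mul_eq_mul_div, le_div_iff₀ hN0]
      exact h2
    obtain ⟨A', B', hA', hB', h3, h4, h5, -⟩ := hnull f hf.1 h1
    rw [h5, aeval_real, aeval_real, hz A' hA' h3 z hzZ, hz B' hB' h4 z hzZ]
    simp

/-- the product of the split off factors -/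
noncomputable def Rf (a : ℝ) (n k : ℕ) : ℝ[X] := ∏ j ∈ range k, (1 - C (1 / xk a (n + 1 + j) ^ 2) * X ^ 2)

lemma Rf_deg (a : ℝ) (n k : ℕ) : (Rf a n k).natDegree ≤ 2 * k := by
  unfold Rf
  refine (natDegree_prod_le _ _).trans ?_
  refine (sum_le_sum fun j _ => (?_ : _ ≤ 2)).trans ?_
  · refine (natDegree_sub_le _ _).trans ?_
    rw [natDegree_one]
    exact max_le (Nat.zero_le _) (natDegree_C_mul_X_pow_le _ _)
  · simp [mul_comm]

lemma Rf_aeval (a : ℝ) (n k : ℕ) (z : ℂ) : aeval z (Rf a n k) = ∏ j ∈ range k, (1 - z ^ 2 / ((xk a (n + 1 + j) : ℝ) : ℂ) ^ 2) := by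
  unfold Rf
  rw [map_prod]
  refine prod_congr rfl fun j _ => ?_
  simp only [map_sub, map_one, map_mul, map_pow, aeval_X, aeval_C]
  have e1 : (algebraMap ℝ ℂ) (1 / xk a (n + 1 + j) ^ 2) = 1 / ((xk a (n + 1 + j) : ℝ) : ℂ) ^ 2 := by
    change ((1 / xk a (n + 1 + j) ^ 2 : ℝ) : ℂ) = _
    push_cast
    rfl
  rw [e1]
  ring

theorem thB (hSpB : S_SpB) (hRepInv : S_RepInv) (hRep : S_Rep) (hLin : S_Lin) (hForm : S_Form) (hLimLZ : S_LimLZ)
    (hLimInt : S_LimInt) (hNeg : S_Neg) (hQuad : S_Quad) (hDense : S_Dense) (hZS : S_ZSz) (hSpR : S_SpR) : S_ThB := by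
  rintro ⟨ρ0, hρ0⟩ n κ hκ hn n' hn'
  have htop := n_top hκ hn
  have hck : 0 < ck κ := by unfold ck; positivity
  obtain ⟨hZS, hinj, hmz⟩ := hZS
  have part1 : ∀ B : ℝ, ∀ᶠ a in atTop, ∃ f : ℝ → ℂ, Y23.G.F.Hn a (n' a : ℕ∞) f ∧ 0 < Y23.N2 f ∧ Y23.QQ f < -B * Y23.N2 f := by
    intro B
    have hoff : ∃ z ∈ Set.range zp, z.im ≠ 0 := by
      refine ⟨zp ρ0, ⟨ρ0, rfl⟩, ?_⟩
      unfold zp
      intro h
      apply hρ0
      simp at h
      linarith
    obtain ⟨P, hP0, hP1⟩ := hNeg (Set.range zp) mz hZS hoff (ck κ) hck (B / (2 * Real.pi) + 1)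
    set J : ℝ := ∫ x : ℝ, P.eval x ^ 2 * Real.exp (-(2 * ck κ * x ^ 2)) with hJ
    have hLI : LI κ (P * P) ≤ -(B / (2 * Real.pi) + 1) * J := by
      refine le_trans (le_of_eq ?_) hP1
      unfold LI
      rw [tsum_range (fun z : ℂ => (mz z : ℝ) * ((aeval z P) ^ 2 * Complex.exp (-(2 * ck κ * z ^ 2))).re) hinj]
      refine tsum_congr fun ρ => ?_
      rw [hmz, map_mul, sq (aeval (zp ρ) P)]
    have h1 := hLimLZ n κ hκ hn (P * P)
    have h2 := hLimInt n κ hκ hn (P * P)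
    have h3 : (1 / (2 * Real.pi) * ∫ x : ℝ, (P * P).eval x * Real.exp (-(2 * ck κ * x ^ 2))) = J / (2 * Real.pi) := by
      have : (fun x : ℝ => (P * P).eval x * Real.exp (-(2 * ck κ * x ^ 2))) =
          fun x : ℝ => P.eval x ^ 2 * Real.exp (-(2 * ck κ * x ^ 2)) := by
        funext x
        rw [eval_mul, ← sq]
      rw [this, ← hJ]
      ring
    rw [h3] at h2
    have h4 := h1.add (h2.const_mul B)
    have hpi := Real.pi_pos
    have h5 : LI κ (P * P) + B * (J / (2 * Real.pi)) < 0 := by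
      have e : -(B / (2 * Real.pi) + 1) * J + B * (J / (2 * Real.pi)) = -J := by
        field_simp
        ring
      linarith
    filter_upwards [h4.eventually_lt_const h5, h2.eventually_const_lt (by positivity : (0 : ℝ) < J / (2 * Real.pi)),
      htop.eventually_ge_atTop P.natDegree, hn', eventually_gt_atTop 0] with a h6 h7 h8 h9 ha
    obtain ⟨f, hf, hq, hN, -⟩ := real_elem hRepInv hForm ha P (n := n a) (by omega)
    refine ⟨f, Hn_mono h9 hf, by rw [hN]; exact h7, ?_⟩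
    rw [hq, hN]
    linarith
  refine ⟨part1, ?_⟩
  intro s t C hst
  have H : ∀ a : ℝ, 0 < a → ∃ (lam : ℝ) (Z : Finset ℝ) (w : ℝ → ℝ), (∀ z, 0 ≤ w z) ∧
      (∀ h : ℝ → ℂ, Y23.G.F.Hn a (n' a : ℕ∞) h → lam * Y23.N2 h ≤ Y23.QQ h) ∧
      (∀ P : ℝ[X], P.natDegree + 1 ≤ 2 * n' a → LZ a (n' a) (P * P) - lam * OZ a (n' a) (P * P) = ∑ z ∈ Z, w z * P.eval z ^ 2) ∧
      ∀ f : ℝ → ℂ, Gd a (n' a) f → ∀ z ∈ Z, Y23.TT f (Complex.I * z) = 0 :=
    fun a ha => quadZ hRepInv hRep hLin hForm hQuad a (n' a) ha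
  choose! lam Z w hw hlow hsum hgd using H
  have hlam : Tendsto lam atTop atBot := by
    rw [tendsto_atBot]
    intro b
    filter_upwards [part1 (-b), eventually_gt_atTop 0] with a ⟨f, hf, hN, hq⟩ ha
    have h1 := hlow a ha f hf
    have h2 : lam a * Y23.N2 f < b * Y23.N2 f := by rw [neg_neg] at hq; exact lt_of_le_of_lt h1 hq
    exact (lt_of_mul_lt_mul_right h2 hN.le).le
  set R : ℝ → ℝ[X] := fun a => Rf a (n a) (n' a - n a) with hR
  have hpi := Real.pi_pos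
  have hnn : ∀ a z, 0 ≤ 2 * Real.pi * |w a z| * (R a).eval z ^ 2 / |lam a| := fun a z => by positivity
  have hten : ∀ P : ℝ[X], Tendsto (fun a => ∑ z ∈ Z a, 2 * Real.pi * |w a z| * (R a).eval z ^ 2 / |lam a| * P.eval z ^ 2) atTop
      (𝓝 (∫ x : ℝ, P.eval x ^ 2 * Real.exp (-(2 * ck κ * x ^ 2)))) := by
    intro P
    have h1 := hLimLZ n κ hκ hn (P * P)
    have h2 := hLimInt n κ hκ hn (P * P)
    have h3 : Tendsto (fun a => 2 * Real.pi * (LZ a (n a) (P * P) / |lam a|) + 2 * Real.pi * OZ a (n a) (P * P)) atTop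
        (𝓝 (2 * Real.pi * 0 + 2 * Real.pi * (1 / (2 * Real.pi) * ∫ x : ℝ, (P * P).eval x * Real.exp (-(2 * ck κ * x ^ 2))))) := by
      refine (Tendsto.const_mul _ ?_).add (h2.const_mul _)
      refine h1.div_atTop ?_
      exact tendsto_abs_atBot_atTop.comp hlam
    have h4 : 2 * Real.pi * 0 + 2 * Real.pi * (1 / (2 * Real.pi) * ∫ x : ℝ, (P * P).eval x * Real.exp (-(2 * ck κ * x ^ 2))) =
        ∫ x : ℝ, P.eval x ^ 2 * Real.exp (-(2 * ck κ * x ^ 2)) := by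
      have : (fun x : ℝ => (P * P).eval x * Real.exp (-(2 * ck κ * x ^ 2))) =
          fun x : ℝ => P.eval x ^ 2 * Real.exp (-(2 * ck κ * x ^ 2)) := by
        funext x
        rw [eval_mul, ← sq]
      rw [this]
      field_simp
      ring
    rw [h4] at h3
    refine h3.congr' ?_
    filter_upwards [hlam.eventually_lt_atBot 0, eventually_gt_atTop 0, hn', htop.eventually_ge_atTop (P.natDegree + 1)] with
      a hl ha hnn' hdeg
    have hRd := Rf_deg a (n a) (n' a - n a)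
    have h5 := hsum a ha (P * R a) (by
      have := natDegree_mul_le (p := P) (q := R a)
      simp only [hR] at this ⊢
      omega)
    have hS : ∀ z : ℂ, aeval z (R a) * Sp a (n' a) z = Sp a (n a) z := by
      intro z
      rw [hSpR a (n a) (n' a - n a) z ha, Nat.add_sub_cancel' hnn', hR, Rf_aeval]
    have h6 : LZ a (n' a) (P * R a * (P * R a)) = LZ a (n a) (P * P) := by
      unfold LZ
      refine tsum_congr fun ρ => ?_
      rw [← hS (zp ρ)]
      congr 2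
      simp only [map_mul]
      ring
    have h7 : OZ a (n' a) (P * R a * (P * R a)) = OZ a (n a) (P * P) := by
      unfold OZ
      congr 1
      refine integral_congr_ae (Eventually.of_forall fun x => ?_)
      have h8 : (R a).eval x * Sr a (n' a) x = Sr a (n a) x := by
        have h9 := hS (x : ℂ)
        rw [aeval_real, (hSpB a (n' a)).2.2.2.1, (hSpB a (n a)).2.2.2.1] at h9
        exact_mod_cast h9
      simp only
      rw [← h8]
      simp only [eval_mul]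
      ring
    rw [h6, h7] at h5
    have h10 : 0 < |lam a| := abs_pos.2 hl.ne
    have h11 : |lam a| = -lam a := abs_of_neg hl
    have h12 : ∑ z ∈ Z a, 2 * Real.pi * |w a z| * (R a).eval z ^ 2 / |lam a| * P.eval z ^ 2 =
        2 * Real.pi / |lam a| * ∑ z ∈ Z a, w a z * (P * R a).eval z ^ 2 := by
      rw [mul_sum]
      refine sum_congr rfl fun z _ => ?_
      rw [abs_of_nonneg (hw a ha z), eval_mul]
      ring
    rw [h12, ← h5]
    field_simp
    rw [h11]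
    ring
  filter_upwards [hDense atTop (ck κ) hck Z _ hnn hten s t C hst, eventually_gt_atTop 0] with a h1 ha f hf
  refine ⟨_, h1, fun x hx => ?_⟩
  rw [mem_filter] at hx
  exact ⟨hx.2.1, hx.2.2, hgd a ha f hf x hx.1⟩

end Pool.Agent.Q240.CD
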